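import Mathlib

set_option autoImplicit false

/-!
MP_21c964_co: maximum number of rainbow solutions of `x + y < z` in 3-colourings of `[1, n]`.
Blueprint (paper proof of helper296). Rainbow triples are `|A| |B| |C|` in number; `tri A B C`
counts those with the weak triangle inequality; claim `tri ≥ m^3 / 6 - O(m^2)`, `m` = size of the
smallest class. All statements were checked numerically.
-/

namespace Pool.Agent.Q268.RB

open Finset Filter Topology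

/-- weak triangle inequalities -/
def Tri (x y z : ℕ) : Prop := x ≤ y + z ∧ y ≤ x + z ∧ z ≤ x + y

instance (x y z : ℕ) : Decidable (Tri x y z) := by unfold Tri; infer_instance

def tri (A B C : Finset ℕ) : ℕ :=
  ((A ×ˢ B ×ˢ C).filter (fun t => Tri t.1 t.2.1 t.2.2)).card

/-- `A, B, C` are a partition of `[1, n]` -/
structure Part (n : ℕ) (A B C : Finset ℕ) : Prop where
  un : A ∪ B ∪ C = Icc 1 n
  dAB : Disjoint A B
  dAC : Disjoint A C
  dBC : Disjoint B C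

def nAC (A C : Finset ℕ) (b : ℕ) : ℕ := ((A ×ˢ C).filter (fun t => Tri t.1 t.2 b)).card

def nAB (A B : Finset ℕ) (b g : ℕ) : ℕ :=
  ((A ×ˢ (B.erase b)).filter (fun t => Tri t.1 t.2 g)).card

def gain (A B C : Finset ℕ) (b g : ℕ) : ℕ :=
  ((A ×ˢ B ×ˢ C).filter
    (fun t => g < t.1 ∧ t.2.1 < b ∧ t.2.2 < b ∧ t.1 = t.2.1 + t.2.2 + 1)).card

def TaskSymm : Prop := ∀ A B C : Finset ℕ, tri A B C = tri B A C ∧ tri A B C = tri A C B

/-- Delete the last element `b` of `B` and close the gap (`x ↦ if x < b then x else x - 1`).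
New triples come from old ones `x < b < z` with `z = x + y + 1` (`x, y < b` in sorted order);
such a triple contains an element of `B`; replace it by `b`: an injection into the old triangles
that contain `b`. -/
def TaskDel1 : Prop := ∀ (n : ℕ) (A B C : Finset ℕ) (b : ℕ), Part n A B C → b ∈ B →
  (∀ y ∈ B, y ≤ b) →
  ∃ A' B' C' : Finset ℕ, Part (n - 1) A' B' C' ∧ A'.card = A.card ∧ B'.card + 1 = B.card ∧
    C'.card = C.card ∧ tri A' B' C' ≤ tri A B C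

/-- Delete `1`, `b`, `g` and close the gaps. With `σ i = i + 1` (`i + 1 < b`), `i + 2`
(`b ≤ i + 1`, `i + 2 < g`), `i + 3` otherwise, the new sets are the preimages under `σ`. A new
triangle is mapped to an old triangle without `1, b, g` or (only if the two small ones are `< b`
and the big one is `> g`, hence in `A`) to a triple of `gain`. -/
def TaskDel3 : Prop := ∀ (n : ℕ) (A B C : Finset ℕ) (b g : ℕ), Part n A B C → 1 ∈ A → b ∈ B →
  (∀ y ∈ B, y ≤ b) → g ∈ C → (∀ z ∈ C, z ≤ g) → b < g →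
  ∃ A' B' C' : Finset ℕ, Part (n - 3) A' B' C' ∧ A'.card + 1 = A.card ∧
    B'.card + 1 = B.card ∧ C'.card + 1 = C.card ∧
    tri A' B' C' + nAC A C b + nAB A B b g ≤ tri A B C + gain A B C b g

/-- balanced partition of `[1, 3m]`, last elements `b < g` of `B` and `C` -/
structure Cfg (m b g : ℕ) (A B C : Finset ℕ) : Prop extends Part (3 * m) A B C where
  cA : A.card = m
  cB : B.card = m
  cC : C.card = m
  bB : b ∈ B
  bmax : ∀ y ∈ B, y ≤ b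
  gC : g ∈ C
  gmax : ∀ z ∈ C, z ≤ g
  bg : b < g

/-- number of elements of `S` in `[1, min t b]` -/
def ct (S : Finset ℕ) (b t : ℕ) : ℤ := ((S.filter (fun x => x ≤ t ∧ x ≤ b)).card : ℤ)

def pp (A : Finset ℕ) (b : ℕ) : ℤ := ((A.filter (fun x => x < b)).card : ℤ)
def qq (A : Finset ℕ) (b g : ℕ) : ℤ := ((A.filter (fun x => b < x ∧ x < g)).card : ℤ)
def ss (A : Finset ℕ) (g : ℕ) : ℤ := ((A.filter (fun x => g < x)).card : ℤ)

/-- `A ∩ (b, g)` shifted by `b` -/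
def sh (A : Finset ℕ) (b g : ℕ) : Finset ℕ :=
  (A.filter (fun x => b < x ∧ x < g)).image (fun x => x - b)

def del (A : Finset ℕ) (b t : ℕ) : ℤ := min (pp A b) t - ct A b t

def rho (A B C : Finset ℕ) (b g i : ℕ) : ℤ :=
  3 * qq A b g + 4 * ss A g + 2 * (ct A b i - ct C b i - ct B b (g - b - i)
    - max 0 ((i : ℤ) - b) - max 0 (((g - b - i : ℕ) : ℤ) - b))

/-- elementary relations; `pp C b` is the number of elements of `C` below `b` -/
def TaskNum : Prop := ∀ (m b g : ℕ) (A B C : Finset ℕ), Cfg m b g A B C →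
  pp A b + qq A b g + ss A g = m ∧ (g : ℤ) - b = qq A b g + m - pp C b ∧
  (b : ℤ) = pp A b + m + pp C b ∧ (3 * m : ℤ) - g = ss A g ∧ pp C b ≤ m ∧
  (∀ t : ℕ, ct A b t + ct B b t + ct C b t = min (t : ℤ) b) ∧
  ((sh A b g).card : ℤ) = qq A b g ∧ sh A b g ⊆ Icc 1 (g - b - 1)

def ff (A B C : Finset ℕ) (b g x : ℕ) : ℤ :=
  ((C.filter (fun z => Tri x z b)).card : ℤ) + (((B.erase b).filter (fun y => Tri x y g)).card : ℤ)
    - (((B ×ˢ C).filter (fun t => g < x ∧ t.1 < b ∧ t.2 < b ∧ x = t.1 + t.2 + 1)).card : ℤ)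

def TaskE0 : Prop := ∀ (A B C : Finset ℕ) (b g : ℕ),
  (nAC A C b : ℤ) + nAB A B b g - gain A B C b g = ∑ x ∈ A, ff A B C b g x

/-- `C ∩ [b - x, b + x]` and `B ∩ [g - x, b)`; between `b` and `g` there are only `A` and `C`,
below `b` all three. Cases `x ≤ g - b` and `x > g - b` (then all of `C ∩ (b, g]` counts, and
`(B ∪ C) ∩ [g - x, b)`). -/
def TaskF1 : Prop := ∀ (m b g : ℕ) (A B C : Finset ℕ), Cfg m b g A B C → ∀ x ∈ A, x < b →
  (x : ℤ) - ((A.filter (fun t => b < t ∧ t ≤ b + x ∧ t < g)).card : ℤ)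
    - ((A.filter (fun t => g < x + t ∧ t < b)).card : ℤ) - 1 ≤ ff A B C b g x

/-- `C ∩ [x - b, x + b]` and `B ∩ [g - x, b)` -/
def TaskF2 : Prop := ∀ (m b g : ℕ) (A B C : Finset ℕ), Cfg m b g A B C → ∀ x ∈ A, b < x →
  x < g → 2 * (m : ℤ) - ct C b (x - b) - ct B b (g - x) - max 0 (((x - b : ℕ) : ℤ) - b)
    - max 0 (((g - x : ℕ) : ℤ) - b) - 1 ≤ ff A B C b g x

/-- the third count is at most the first (`z ≥ x - b`); `B ∩ [x - g, b)` -/
def TaskF3 : Prop := ∀ (m b g : ℕ) (A B C : Finset ℕ), Cfg m b g A B C → ∀ x ∈ A, g < x →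
  (m : ℤ) - ((x : ℤ) - g) ≤ ff A B C b g x

/-- Induction on `h` by removing `1` and `h` (and shifting by one): the pairs which contain `h`
are `h` with all elements of the opposite class. If `1, h` are in different classes use `k - 1`;
if both in `X` use `k - 1` if `k < |X|` and `k - 2` if `k = |X|`; the same for both in the
complement. -/
def TaskGc : Prop := ∀ (h k : ℕ) (X : Finset ℕ), X ⊆ Icc 1 h → k ≤ X.card → k + X.card ≤ h →
  3 * k ≤ h → k ^ 2 ≤ 2 * ((X ×ˢ (Icc 1 h \ X)).filter (fun t => h < t.1 + t.2)).card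

def TaskGs : Prop := ∀ (h : ℕ) (X : Finset ℕ), X ⊆ Icc 1 h →
  ∑ x ∈ X, x = ((X ×ˢ (Icc 1 h \ X)).filter (fun t => h < t.1 + t.2)).card +
    ((X ×ˢ X).filter (fun t => h < t.1 + t.2)).card

/-- from TaskNum, TaskGc, TaskGs. `A1 = {x ∈ A, x < b}`, `L = g - b`, `r t = #{x ∈ A1, x > t}`,
`del t = r t - max 0 (p - t)`. `∑ x = ∑_{t < b} r t`; for `t ≥ L` use `X = {x - L | x ∈ A1, x > L}`
in `[1, b - L]`, `k = p - L`. -/
def TaskG3 : Prop := ∀ (m b g : ℕ) (A B C : Finset ℕ), Cfg m b g A B C →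
  pp A b ^ 2 + 2 * ∑ t ∈ range (g - b), del A b t ≤
    2 * ∑ x ∈ A.filter (fun x => x < b), (x : ℤ) -
    2 * ∑ x ∈ A.filter (fun x => x < b), ((A.filter (fun t => g < x + t ∧ t < b)).card : ℤ)

/-- exchange the sums: `∑_i #{x ∈ A, i ≤ x < b}` -/
def TaskS2 : Prop := ∀ (m b g : ℕ) (A B C : Finset ℕ), Cfg m b g A B C →
  ∑ x ∈ A.filter (fun x => x < b), ((A.filter (fun t => b < t ∧ t ≤ b + x ∧ t < g)).card : ℤ) ≤
    ∑ i ∈ sh A b g, (pp A b - ct A b i) + qq A b g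

/-- from TaskNum. `j = L - i`. With `α + β + γ = min t b` at `t = j`; then
`γ i - γ j + max 0 (i - b) ≤ max 0 (i - j)`; finally `L ≤ p + 2 q + s`. -/
def TaskOne : Prop := ∀ (m b g : ℕ) (A B C : Finset ℕ), Cfg m b g A B C → ∀ i j : ℕ,
  i + j = g - b →
  2 * min (i : ℤ) j - qq A b g ≤ 2 * del A b i + 2 * del A b j + rho A B C b g i

/-- from TaskNum. -/
def TaskBoth : Prop := ∀ (m b g : ℕ) (A B C : Finset ℕ), Cfg m b g A B C → ∀ i j : ℕ,
  i + j = g - b →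
  2 * min (min (i : ℤ) j) (qq A b g) ≤
    2 * del A b i + 2 * del A b j + rho A B C b g i + rho A B C b g j

/-- `2 ∑ (..) = ∑_t W t`, `W t = 2 d t + 2 d (L-t) + [t ∈ I] r t + [L-t ∈ I] r (L-t)`. With
`O` = exactly one of `t, L-t` in `I`, `D0` = both in `I` and `min t (L-t) < q`, `D1` = the other
ones with both, `k = |O| + |D0|`, `q = |O|/2 + |D0| + |D1|`: `∑ W ≥ ∑_{O ∪ D0} 2 min t (L-t) -
q |O| + 2 q |D1|` and `∑_{t ∈ S} min t (L-t) ≥ k^2/4 - k/2` if `|S| = k`; the total is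
`≥ 2 (k/2 - q)^2 - k ≥ -(L+1)`. -/
def TaskSumH : Prop := ∀ (L : ℕ) (I : Finset ℕ) (d r : ℕ → ℤ), I ⊆ range (L + 1) →
  (∀ i ≤ L, 0 ≤ d i) →
  (∀ i j, i + j = L → 2 * min (i : ℤ) j - I.card ≤ 2 * d i + 2 * d j + r i) →
  (∀ i j, i + j = L → 2 * min (min (i : ℤ) j) I.card ≤ 2 * d i + 2 * d j + r i + r j) →
  -((L : ℤ) + 1) ≤ 2 * (∑ t ∈ range (L + 1), 2 * d t + ∑ i ∈ I, r i)

/-- from TaskNum, TaskOne, TaskBoth, TaskSumH and `0 ≤ del` -/
def TaskH : Prop := ∀ (m b g : ℕ) (A B C : Finset ℕ), Cfg m b g A B C →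
  -(4 * (m : ℤ)) ≤ ∑ t ∈ range (g - b), 2 * del A b t + ∑ i ∈ sh A b g, rho A B C b g i

/-- from TaskNum, TaskE0, TaskF1, TaskF2, TaskF3, TaskG3, TaskS2, TaskH: sum over
`A = {x < b} ∪ {b < x < g} ∪ {x > g} = (g, 3m]` -/
def TaskE : Prop := ∀ (m b g : ℕ) (A B C : Finset ℕ), Cfg m b g A B C →
  (m : ℤ) ^ 2 ≤ 2 * ((nAC A C b : ℤ) + nAB A B b g - gain A B C b g) + 10 * m

/-- from TaskSymm, TaskDel3, TaskE: induction on `m` -/
def TaskBal : Prop := ∀ (m : ℕ) (A B C : Finset ℕ), Part (3 * m) A B C → A.card = m →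
  B.card = m → C.card = m → (m : ℤ) ^ 3 ≤ 6 * tri A B C + 30 * (m : ℤ) ^ 2

/-- from TaskSymm, TaskDel1, TaskBal: induction on `n` -/
def TaskLow : Prop := ∀ (n m : ℕ) (A B C : Finset ℕ), Part n A B C → m ≤ A.card →
  m ≤ B.card → m ≤ C.card → (m : ℤ) ^ 3 ≤ 6 * tri A B C + 30 * (m : ℤ) ^ 2

/-- number of rainbow solutions of `x + y < z`, `x ≤ y` in `[1, n]` -/
def rb (n : ℕ) (χ : ℕ → Fin 3) : ℕ :=
  ((Icc 1 n ×ˢ Icc 1 n ×ˢ Icc 1 n).filter (fun t => t.1 ≤ t.2.1 ∧ t.1 + t.2.1 < t.2.2 ∧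
    χ t.1 ≠ χ t.2.1 ∧ χ t.1 ≠ χ t.2.2 ∧ χ t.2.1 ≠ χ t.2.2)).card

def cl (n : ℕ) (χ : ℕ → Fin 3) (k : Fin 3) : Finset ℕ := (Icc 1 n).filter (fun x => χ x = k)

/-- sort a triple of `A × B × C` which is not a triangle -/
def TaskCount : Prop := ∀ (n : ℕ) (χ : ℕ → Fin 3),
  rb n χ + tri (cl n χ 0) (cl n χ 1) (cl n χ 2) =
    (cl n χ 0).card * (cl n χ 1).card * (cl n χ 2).card

/-- `c - f(t) = (t - t0)^2 (2 + 2√3 - t) / 12` for `n = 1`, `t0 = 2 - √3` -/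
def TaskOpt : Prop := ∀ m n : ℝ, 0 ≤ m → m ≤ n →
  m * (n - m) ^ 2 / 4 - m ^ 3 / 6 ≤ (3 * √3 - 5) / 6 * n ^ 3

/-- from TaskCount, TaskLow, TaskOpt -/
def TaskUp : Prop := ∀ (n : ℕ) (χ : ℕ → Fin 3),
  (rb n χ : ℝ) ≤ (3 * √3 - 5) / 6 * (n : ℝ) ^ 3 + 5 * (n : ℝ) ^ 2

/-- for `x ∈ [1, a]` the pairs are `y = a + b - s`, `z = a + b + t`, `s + t ≤ x`, `t ≥ 1` -/
def TaskInt : Prop := ∀ a b c : ℕ,
  6 * tri (Icc 1 a) (Ioc a (a + b)) (Ioc (a + b) (a + b + c)) ≤ a * (a + 1) * (a + 2)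

/-- from TaskCount, TaskInt: three intervals, `a = ⌊(2 - √3) n⌋`, `b = ⌊(√3 - 1) n / 2⌋` -/
def TaskLb : Prop := ∀ n : ℕ, ∃ χ : ℕ → Fin 3,
  (3 * √3 - 5) / 6 * (n : ℝ) ^ 3 - 10 * (n : ℝ) ^ 2 - 10 ≤ rb n χ

/-- from TaskUp, TaskLb -/
def TaskFinal : Prop :=
  (∀ n : ℕ, BddAbove (Set.range (fun χ : ℕ → Fin 3 => rb n χ))) ∧
  Tendsto (fun n : ℕ => ((⨆ χ : ℕ → Fin 3, rb n χ : ℕ) : ℝ) / (n : ℝ) ^ 3) atTop
    (𝓝 ((3 * √3 - 5) / 6))

end Pool.Agent.Q268.RB
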