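import Mathlib
import Pool.Agent.Q268.RB.Stmts

set_option autoImplicit false

namespace Pool.Agent.Q268.RB

open Finset

private theorem part_ba {n : ℕ} {A B C : Finset ℕ} (h : Part n A B C) : Part n B A C :=
  ⟨by rw [Finset.union_comm B A]; exact h.un, h.dAB.symm, h.dBC, h.dAC⟩

private theorem part_cb {n : ℕ} {A B C : Finset ℕ} (h : Part n A B C) : Part n A C B :=
  ⟨by rw [Finset.union_right_comm]; exact h.un, h.dAC, h.dAB, h.dBC.symm⟩

theorem taskBal (hS : TaskSymm) (hD : TaskDel3) (hE : TaskE) : TaskBal := by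
  intro m
  induction m with
  | zero =>
    intro A B C _ _ _ _
    push_cast
    positivity
  | succ m ih =>
    have core : ∀ (A B C : Finset ℕ) (b g : ℕ), Cfg (m + 1) b g A B C → 1 ∈ A →
        ((m + 1 : ℕ) : ℤ) ^ 3 ≤ 6 * tri A B C + 30 * ((m + 1 : ℕ) : ℤ) ^ 2 := by
      intro A B C b g hc h1
      obtain ⟨A', B', C', hP, hA, hB, hC, ht⟩ := hD (3 * (m + 1)) A B C b g hc.toPart h1 hc.bB
        hc.bmax hc.gC hc.gmax hc.bg
      have h3 : 3 * (m + 1) - 3 = 3 * m := by omega
      rw [h3] at hP
      have hi := ih A' B' C' hP (by have := hc.cA; omega) (by have := hc.cB; omega)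
        (by have := hc.cC; omega)
      have hE' := hE _ b g A B C hc
      have ht' : (tri A' B' C' : ℤ) + nAC A C b + nAB A B b g ≤ tri A B C + gain A B C b g := by
        exact_mod_cast ht
      push_cast at hi hE' ⊢
      nlinarith
    have core2 : ∀ (A B C : Finset ℕ), Part (3 * (m + 1)) A B C → A.card = m + 1 →
        B.card = m + 1 → C.card = m + 1 → 1 ∈ A →
        ((m + 1 : ℕ) : ℤ) ^ 3 ≤ 6 * tri A B C + 30 * ((m + 1 : ℕ) : ℤ) ^ 2 := by
      intro A B C hP hA hB hC h1
      have hBn : B.Nonempty := Finset.card_pos.1 (by omega)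
      have hCn : C.Nonempty := Finset.card_pos.1 (by omega)
      rcases lt_trichotomy (B.max' hBn) (C.max' hCn) with h | h | h
      · exact core A B C _ _ ⟨hP, hA, hB, hC, B.max'_mem hBn, fun y hy => B.le_max' y hy,
          C.max'_mem hCn, fun y hy => C.le_max' y hy, h⟩ h1
      · exfalso
        have h2 := B.max'_mem hBn
        rw [h] at h2
        exact Finset.disjoint_left.1 hP.dBC h2 (C.max'_mem hCn)
      · rw [(hS A B C).2]
        exact core A C B _ _ ⟨part_cb hP, hA, hC, hB, C.max'_mem hCn, fun y hy => C.le_max' y hy,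
          B.max'_mem hBn, fun y hy => B.le_max' y hy, h⟩ h1
    intro A B C hP hA hB hC
    have h1 : 1 ∈ A ∪ B ∪ C := by
      rw [hP.un, Finset.mem_Icc]
      omega
    simp only [Finset.mem_union] at h1
    rcases h1 with (h1 | h1) | h1
    · exact core2 A B C hP hA hB hC h1
    · rw [(hS A B C).1]
      exact core2 B A C (part_ba hP) hB hA hC h1
    · rw [(hS A B C).2, (hS A C B).1]
      exact core2 C A B (part_ba (part_cb hP)) hC hA hB h1

end Pool.Agent.Q268.RB
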