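import Mathlib
import Pool.Agent.Q268.RB.Stmts

set_option autoImplicit false

namespace Pool.Agent.Q268.RB

open Finset

theorem taskBoth (hN : TaskNum) : TaskBoth := by
  intro m b g A B C hc i j hij
  obtain ⟨h1, h2, h3, h4, h5, h6, -, -⟩ := hN m b g A B C hc
  have hp : 0 ≤ pp A b := Int.natCast_nonneg _
  have hq : 0 ≤ qq A b g := Int.natCast_nonneg _
  have hs : 0 ≤ ss A g := Int.natCast_nonneg _
  have hC : 0 ≤ pp C b := Int.natCast_nonneg _
  have hAi : 0 ≤ ct A b i := Int.natCast_nonneg _
  have hAj : 0 ≤ ct A b j := Int.natCast_nonneg _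
  have hi := h6 i
  have hj := h6 j
  have hbg := hc.bg
  have e1 : g - b - i = j := by omega
  have e2 : g - b - j = i := by omega
  have hL : (i : ℤ) + j = g - b := by omega
  unfold rho del
  rw [e1, e2]
  generalize pp A b = p at *
  generalize qq A b g = q at *
  generalize ss A g = s at *
  generalize pp C b = c at *
  generalize ct A b i = ai at *
  generalize ct A b j = aj at *
  generalize ct B b i = bi at *
  generalize ct B b j = bj at *
  generalize ct C b i = ci at *
  generalize ct C b j = cj at *
  omega

end Pool.Agent.Q268.RB
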