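import Pool.Agent.Q268.RB.Stmts

set_option autoImplicit false

namespace Pool.Agent.Q268.RB

open Finset

namespace CountAux

/-- the element with the colour `k` -/
def gk (χ : ℕ → Fin 3) (k : Fin 3) (t : ℕ × ℕ × ℕ) : ℕ :=
  if χ t.1 = k then t.1 else if χ t.2.1 = k then t.2.1 else t.2.2

/-- the elements with the colours `0, 1, 2` -/
def ii (χ : ℕ → Fin 3) (t : ℕ × ℕ × ℕ) : ℕ × ℕ × ℕ := (gk χ 0 t, gk χ 1 t, gk χ 2 t)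

/-- sort the first two -/
def so (x y z : ℕ) : ℕ × ℕ × ℕ := if x ≤ y then (x, y, z) else (y, x, z)

/-- sort a triple which is not a triangle -/
def jj (t : ℕ × ℕ × ℕ) : ℕ × ℕ × ℕ :=
  if t.2.1 + t.2.2 < t.1 then so t.2.1 t.2.2 t.1
  else if t.1 + t.2.2 < t.2.1 then so t.1 t.2.2 t.2.1
  else so t.1 t.2.1 t.2.2

theorem six : ∀ u v w : Fin 3, u ≠ v → u ≠ w → v ≠ w →
    (u = 0 ∧ v = 1 ∧ w = 2) ∨ (u = 0 ∧ v = 2 ∧ w = 1) ∨ (u = 1 ∧ v = 0 ∧ w = 2) ∨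
    (u = 1 ∧ v = 2 ∧ w = 0) ∨ (u = 2 ∧ v = 0 ∧ w = 1) ∨ (u = 2 ∧ v = 1 ∧ w = 0) := by
  decide

theorem count (n : ℕ) (χ : ℕ → Fin 3) :
    rb n χ = ((cl n χ 0 ×ˢ cl n χ 1 ×ˢ cl n χ 2).filter (fun t => ¬ Tri t.1 t.2.1 t.2.2)).card := by
  unfold rb
  refine Finset.card_bij' (fun t _ => ii χ t) (fun t _ => jj t) ?_ ?_ ?_ ?_
  · rintro ⟨x, y, z⟩ ht
    simp only [mem_filter, mem_product, mem_Icc] at ht
    obtain ⟨⟨⟨hx, hx'⟩, ⟨hy, hy'⟩, hz, hz'⟩, hxy, hz2, h1, h2, h3⟩ := ht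
    rw [mem_filter, mem_product, mem_product]
    simp only [cl, mem_filter, mem_Icc, Tri, ii, gk]
    rcases six _ _ _ h1 h2 h3 with ⟨a, b, c⟩ | ⟨a, b, c⟩ | ⟨a, b, c⟩ | ⟨a, b, c⟩ | ⟨a, b, c⟩ | ⟨a, b, c⟩ <;>
    simp [a, b, c] <;> omega
  · rintro ⟨x, y, z⟩ ht
    rw [mem_filter, mem_product, mem_product] at ht
    simp only [cl, mem_filter, mem_Icc, Tri] at ht
    obtain ⟨⟨⟨⟨hx, hx'⟩, h0⟩, ⟨⟨hy, hy'⟩, h1⟩, ⟨hz, hz'⟩, h2⟩, hT⟩ := ht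
    simp only [mem_filter, mem_product, mem_Icc, jj, so]
    split_ifs with a1 a2 a3 a4 a5 <;> simp [h0, h1, h2] <;> omega
  · rintro ⟨x, y, z⟩ ht
    simp only [mem_filter, mem_product, mem_Icc] at ht
    obtain ⟨⟨⟨hx, hx'⟩, ⟨hy, hy'⟩, hz, hz'⟩, hxy, hz2, h1, h2, h3⟩ := ht
    have hxy' : x ≠ y := fun h => h1 (by rw [h])
    rcases six _ _ _ h1 h2 h3 with ⟨a, b, c⟩ | ⟨a, b, c⟩ | ⟨a, b, c⟩ | ⟨a, b, c⟩ | ⟨a, b, c⟩ | ⟨a, b, c⟩ <;>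
    simp only [ii, gk, a, b, c, jj, so] <;> simp <;> split_ifs <;> first | omega | (simp; try omega)
  · rintro ⟨x, y, z⟩ ht
    rw [mem_filter, mem_product, mem_product] at ht
    simp only [cl, mem_filter, mem_Icc, Tri] at ht
    obtain ⟨⟨⟨⟨hx, hx'⟩, h0⟩, ⟨⟨hy, hy'⟩, h1⟩, ⟨hz, hz'⟩, h2⟩, hT⟩ := ht
    simp only [jj, so]
    split_ifs with a1 a2 a3 a4 a5 <;> simp [ii, gk, h0, h1, h2]

end CountAux

theorem taskCount : TaskCount := by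
  intro n χ
  rw [CountAux.count]
  unfold tri
  rw [add_comm, Finset.card_filter_add_card_filter_not, card_product, card_product, mul_assoc]

end Pool.Agent.Q268.RB
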