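import Mathlib
import Pool.Agent.Q268.RB.Stmts

set_option autoImplicit false

namespace Pool.Agent.Q268.RB.TaskDel1

open Finset Pool.Agent.Q268.RB

/-- the map from the new to the old numbers -/
def sg (b i : ℕ) : ℕ := if i < b then i else i + 1

theorem sg_inj (b : ℕ) : Function.Injective (sg b) := by
  intro i j h
  unfold sg at h
  split_ifs at h <;> omega

def pre (n b : ℕ) (S : Finset ℕ) : Finset ℕ := (Icc 1 (n - 1)).filter fun i => sg b i ∈ S

theorem pre_image {n b : ℕ} (hb : 1 ≤ b ∧ b ≤ n) {S : Finset ℕ} (hS : S ⊆ Icc 1 n) :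
    (pre n b S).image (sg b) = S.erase b := by
  ext a
  simp only [pre, mem_image, mem_filter, mem_Icc, mem_erase]
  constructor
  · rintro ⟨i, ⟨hi, h⟩, rfl⟩
    refine ⟨?_, h⟩
    unfold sg
    split_ifs <;> omega
  · rintro ⟨hab, ha⟩
    have h1 := mem_Icc.1 (hS ha)
    refine ⟨if a < b then a else a - 1, ?_, ?_⟩
    · have : sg b (if a < b then a else a - 1) = a := by
        unfold sg
        split_ifs <;> omega
      rw [this]
      refine ⟨?_, ha⟩
      split_ifs <;> omega
    · unfold sg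
      split_ifs <;> omega

theorem pre_card {n b : ℕ} (hb : 1 ≤ b ∧ b ≤ n) {S : Finset ℕ} (hS : S ⊆ Icc 1 n) :
    (pre n b S).card = (S.erase b).card := by
  rw [← pre_image hb hS, card_image_of_injective _ (sg_inj b)]

theorem main : Pool.Agent.Q268.RB.TaskDel1 := by
  intro n A B C b hP hb hmax
  have hA : A ⊆ Icc 1 n := by
    rw [← hP.un]; intro x hx; simp [hx]
  have hB : B ⊆ Icc 1 n := by
    rw [← hP.un]; intro x hx; simp [hx]
  have hC : C ⊆ Icc 1 n := by
    rw [← hP.un]; intro x hx; simp [hx]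
  have hb1 : 1 ≤ b ∧ b ≤ n := mem_Icc.1 (hB hb)
  have hbA : b ∉ A := fun h => (Finset.disjoint_left.1 hP.dAB h) hb
  have hbC : b ∉ C := fun h => (Finset.disjoint_left.1 hP.dBC hb) h
  refine ⟨pre n b A, pre n b B, pre n b C, ⟨?_, ?_, ?_, ?_⟩, ?_, ?_, ?_, ?_⟩
  · ext i
    simp only [pre, mem_union, mem_filter, mem_Icc]
    constructor
    · rintro ((h | h) | h) <;> exact h.1
    · intro hi
      have : sg b i ∈ A ∪ B ∪ C := by
        rw [hP.un, mem_Icc]
        unfold sg
        split_ifs <;> omega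
      rw [mem_union, mem_union] at this
      rcases this with (h | h) | h
      · exact Or.inl (Or.inl ⟨hi, h⟩)
      · exact Or.inl (Or.inr ⟨hi, h⟩)
      · exact Or.inr ⟨hi, h⟩
  · rw [Finset.disjoint_left]
    intro i h1 h2
    exact (Finset.disjoint_left.1 hP.dAB (mem_filter.1 h1).2) (mem_filter.1 h2).2
  · rw [Finset.disjoint_left]
    intro i h1 h2
    exact (Finset.disjoint_left.1 hP.dAC (mem_filter.1 h1).2) (mem_filter.1 h2).2
  · rw [Finset.disjoint_left]
    intro i h1 h2
    exact (Finset.disjoint_left.1 hP.dBC (mem_filter.1 h1).2) (mem_filter.1 h2).2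
  · rw [pre_card hb1 hA, erase_eq_of_notMem hbA]
  · rw [pre_card hb1 hB, card_erase_of_mem hb]
    have := card_pos.2 ⟨b, hb⟩
    omega
  · rw [pre_card hb1 hC, erase_eq_of_notMem hbC]
  · unfold tri
    have hlt : ∀ i, sg b i ∈ B → i < b := by
      intro i hi
      have := hmax _ hi
      unfold sg at this
      split_ifs at this with h
      · exact h
      · omega
    refine card_le_card_of_injOn (fun t => if Tri (sg b t.1) (sg b t.2.1) (sg b t.2.2) then
      (sg b t.1, sg b t.2.1, sg b t.2.2) else (sg b t.1, b, sg b t.2.2)) ?_ ?_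
    · rintro ⟨x, y, z⟩ ht
      simp only [coe_filter, mem_product, pre, mem_filter, Set.mem_setOf_eq] at ht ⊢
      obtain ⟨⟨⟨_, hx⟩, ⟨_, hy⟩, ⟨_, hz⟩⟩, ht⟩ := ht
      have hyb := hlt y hy
      have hxb : sg b x ≠ b := by unfold sg; split_ifs <;> omega
      have hzb : sg b z ≠ b := by unfold sg; split_ifs <;> omega
      by_cases h : Tri (sg b x) (sg b y) (sg b z)
      · rw [if_pos h]
        exact ⟨⟨hx, hy, hz⟩, h⟩
      · rw [if_neg h]
        refine ⟨⟨hx, hb, hz⟩, ?_⟩
        change Tri (sg b x) b (sg b z)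
        unfold Tri at h ht ⊢
        unfold sg at h hxb hzb ⊢
        split_ifs at h hxb hzb ⊢ <;> omega
    · rintro ⟨x, y, z⟩ h1 ⟨x', y', z'⟩ h2 he
      simp only [coe_filter, mem_product, pre, mem_filter, Set.mem_setOf_eq] at h1 h2
      obtain ⟨⟨⟨_, _⟩, ⟨_, hy⟩, ⟨_, _⟩⟩, ht⟩ := h1
      obtain ⟨⟨⟨_, _⟩, ⟨_, hy'⟩, ⟨_, _⟩⟩, ht'⟩ := h2
      have hyb := hlt y hy
      have hyb' := hlt y' hy'
      have e1 : sg b y = y := by unfold sg; rw [if_pos hyb]
      have e2 : sg b y' = y' := by unfold sg; rw [if_pos hyb']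
      dsimp only at he
      rw [e1, e2] at he
      by_cases g1 : Tri (sg b x) y (sg b z) <;> by_cases g2 : Tri (sg b x') y' (sg b z')
      · rw [if_pos g1, if_pos g2] at he
        simp only [Prod.mk.injEq] at he ⊢
        exact ⟨sg_inj b he.1, he.2.1, sg_inj b he.2.2⟩
      · rw [if_pos g1, if_neg g2] at he
        simp only [Prod.mk.injEq] at he
        omega
      · rw [if_neg g1, if_pos g2] at he
        simp only [Prod.mk.injEq] at he
        omega
      · rw [if_neg g1, if_neg g2] at he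
        simp only [Prod.mk.injEq] at he ⊢
        have ex := sg_inj b he.1
        have ez := sg_inj b he.2.2
        subst ex ez
        refine ⟨rfl, ?_, rfl⟩
        unfold Tri at g1 g2 ht ht'
        unfold sg at g1 g2
        split_ifs at g1 g2 <;> omega

end Pool.Agent.Q268.RB.TaskDel1
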