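import Pool.Agent.Q268.RB.Stmts

set_option autoImplicit false

namespace Pool.Agent.Q268.RB.TaskDel3

open Finset

/-- the increasing enumeration of the complement of `{1, b, g}` -/
def sg (b g i : ℕ) : ℕ := if i + 1 < b then i + 1 else if i + 2 < g then i + 2 else i + 3

/-- its inverse -/
def dl (b g y : ℕ) : ℕ := if y < b then y - 1 else if y < g then y - 2 else y - 3

theorem sg_inj {b g : ℕ} : Function.Injective (sg b g) := by
  intro i j h
  unfold sg at h
  split_ifs at h <;> omega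

theorem sg_ne {b g i : ℕ} (hbg : b < g) (hi : 1 ≤ i) : sg b g i ≠ 1 ∧ sg b g i ≠ b ∧
    sg b g i ≠ g := by
  unfold sg
  split_ifs <;> omega

theorem sg_dl {b g y : ℕ} (hb : 2 ≤ b) (hbg : b < g) (h1 : 1 ≤ y) (h2 : y ≠ 1) (h3 : y ≠ b)
    (h4 : y ≠ g) : sg b g (dl b g y) = y := by
  unfold sg dl
  split_ifs <;> omega

theorem dl_mem {b g y n : ℕ} (hb : 2 ≤ b) (hbg : b < g) (hgn : g ≤ n) (h1 : 1 ≤ y)
    (hn : y ≤ n) (h2 : y ≠ 1) (h3 : y ≠ b) (h4 : y ≠ g) :
    dl b g y ∈ Icc 1 (n - 3) := by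
  rw [Finset.mem_Icc]
  unfold dl
  split_ifs <;> omega

/-- the new sets -/
def pre (n b g : ℕ) (S : Finset ℕ) : Finset ℕ := (Icc 1 (n - 3)).filter fun i => sg b g i ∈ S

theorem mem_pre {n b g i : ℕ} {S : Finset ℕ} :
    i ∈ pre n b g S ↔ (1 ≤ i ∧ i ≤ n - 3) ∧ sg b g i ∈ S := by
  unfold pre
  rw [Finset.mem_filter, Finset.mem_Icc]

theorem image_pre {n b g e : ℕ} {S : Finset ℕ} (hb : 2 ≤ b) (hbg : b < g) (hgn : g ≤ n)
    (hS : ∀ y ∈ S, 1 ≤ y ∧ y ≤ n) (he : e = 1 ∨ e = b ∨ e = g)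
    (h : ∀ y ∈ S, y ≠ e → y ≠ 1 ∧ y ≠ b ∧ y ≠ g) :
    (pre n b g S).image (sg b g) = S.erase e := by
  ext y
  rw [Finset.mem_image, Finset.mem_erase]
  constructor
  · rintro ⟨i, hi, rfl⟩
    rw [mem_pre] at hi
    obtain ⟨a1, a2, a3⟩ := sg_ne (b := b) (g := g) hbg hi.1.1
    refine ⟨?_, hi.2⟩
    rcases he with rfl | rfl | rfl <;> assumption
  · rintro ⟨hne, hy⟩
    obtain ⟨h2, h3, h4⟩ := h y hy hne
    obtain ⟨h1, hn⟩ := hS y hy
    refine ⟨dl b g y, ?_, sg_dl hb hbg h1 h2 h3 h4⟩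
    rw [mem_pre, sg_dl hb hbg h1 h2 h3 h4]
    exact ⟨Finset.mem_Icc.mp (dl_mem hb hbg hgn h1 hn h2 h3 h4), hy⟩

theorem card_pre {n b g e : ℕ} {S : Finset ℕ} (hb : 2 ≤ b) (hbg : b < g) (hgn : g ≤ n)
    (hS : ∀ y ∈ S, 1 ≤ y ∧ y ≤ n) (he : e = 1 ∨ e = b ∨ e = g) (heS : e ∈ S)
    (h : ∀ y ∈ S, y ≠ e → y ≠ 1 ∧ y ≠ b ∧ y ≠ g) : (pre n b g S).card + 1 = S.card := by
  have h1 : (pre n b g S).card = (S.erase e).card := by
    rw [← image_pre hb hbg hgn hS he h, Finset.card_image_of_injective _ sg_inj]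
  rw [h1, Finset.card_erase_add_one heS]

theorem main : Pool.Agent.Q268.RB.TaskDel3 := by
  intro n A B C b g hP h1A hbB hbmax hgC hgmax hbg
  have hAn : ∀ y ∈ A, 1 ≤ y ∧ y ≤ n := fun y hy => by
    have : y ∈ A ∪ B ∪ C := Finset.mem_union_left _ (Finset.mem_union_left _ hy)
    rw [hP.un] at this
    exact Finset.mem_Icc.mp this
  have hBn : ∀ y ∈ B, 1 ≤ y ∧ y ≤ n := fun y hy => by
    have : y ∈ A ∪ B ∪ C := Finset.mem_union_left _ (Finset.mem_union_right _ hy)
    rw [hP.un] at this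
    exact Finset.mem_Icc.mp this
  have hCn : ∀ y ∈ C, 1 ≤ y ∧ y ≤ n := fun y hy => by
    have : y ∈ A ∪ B ∪ C := Finset.mem_union_right _ hy
    rw [hP.un] at this
    exact Finset.mem_Icc.mp this
  have dAB : ∀ y, y ∈ A → y ∉ B := fun y h1 h2 => Finset.disjoint_left.mp hP.dAB h1 h2
  have dAC : ∀ y, y ∈ A → y ∉ C := fun y h1 h2 => Finset.disjoint_left.mp hP.dAC h1 h2
  have dBC : ∀ y, y ∈ B → y ∉ C := fun y h1 h2 => Finset.disjoint_left.mp hP.dBC h1 h2
  have hgn : g ≤ n := (hCn g hgC).2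
  have hb : 2 ≤ b := by
    have h1 := (hBn b hbB).1
    have h2 : b ≠ 1 := fun h => dAB 1 h1A (h ▸ hbB)
    omega
  refine ⟨pre n b g A, pre n b g B, pre n b g C, ⟨?_, ?_, ?_, ?_⟩, ?_, ?_, ?_, ?_⟩
  · ext i
    rw [Finset.mem_union, Finset.mem_union, mem_pre, mem_pre, mem_pre, Finset.mem_Icc]
    constructor
    · rintro ((h | h) | h) <;> exact h.1
    · intro h
      have h2 : sg b g i ∈ Icc 1 n := by
        rw [Finset.mem_Icc]
        unfold sg
        split_ifs <;> omega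
      rw [← hP.un, Finset.mem_union, Finset.mem_union] at h2
      rcases h2 with (h2 | h2) | h2
      · exact Or.inl (Or.inl ⟨h, h2⟩)
      · exact Or.inl (Or.inr ⟨h, h2⟩)
      · exact Or.inr ⟨h, h2⟩
  · rw [Finset.disjoint_left]
    intro i h1 h2
    exact dAB _ (mem_pre.mp h1).2 (mem_pre.mp h2).2
  · rw [Finset.disjoint_left]
    intro i h1 h2
    exact dAC _ (mem_pre.mp h1).2 (mem_pre.mp h2).2
  · rw [Finset.disjoint_left]
    intro i h1 h2
    exact dBC _ (mem_pre.mp h1).2 (mem_pre.mp h2).2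
  · exact card_pre hb hbg hgn hAn (Or.inl rfl) h1A fun y hy hne =>
      ⟨hne, fun h => dAB y hy (h ▸ hbB), fun h => dAC y hy (h ▸ hgC)⟩
  · exact card_pre hb hbg hgn hBn (Or.inr (Or.inl rfl)) hbB fun y hy hne =>
      ⟨fun h => dAB 1 h1A (h ▸ hy), hne, fun h => dBC y hy (h ▸ hgC)⟩
  · exact card_pre hb hbg hgn hCn (Or.inr (Or.inr rfl)) hgC fun y hy hne =>
      ⟨fun h => dAC 1 h1A (h ▸ hy), fun h => dBC b hbB (h ▸ hy), hne⟩
  · -- the count
    let U := (A ×ˢ B ×ˢ C).filter (fun t => Tri t.1 t.2.1 t.2.2)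
    let Gs := (A ×ˢ B ×ˢ C).filter
      (fun t => g < t.1 ∧ t.2.1 < b ∧ t.2.2 < b ∧ t.1 = t.2.1 + t.2.2 + 1)
    let U1 := U.filter (fun t => t.2.1 = b)
    let U2 := U.filter (fun t => t.2.1 ≠ b ∧ t.2.2 = g)
    let U3 := U.filter (fun t => t.2.1 ≠ b ∧ t.2.2 ≠ g)
    have hU : U1.card + U2.card + U3.card = U.card := by
      have e1 : U1.card + (U.filter fun t => ¬ t.2.1 = b).card = U.card :=
        Finset.card_filter_add_card_filter_not (s := U) (fun t => t.2.1 = b)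
      have e2 := Finset.card_filter_add_card_filter_not (s := U.filter fun t => ¬ t.2.1 = b)
        (fun t => t.2.2 = g)
      have h2 : (U.filter fun t => ¬ t.2.1 = b).filter (fun t => t.2.2 = g) = U2 :=
        Finset.filter_filter _ _ U
      have h3 : (U.filter fun t => ¬ t.2.1 = b).filter (fun t => ¬ t.2.2 = g) = U3 :=
        Finset.filter_filter _ _ U
      rw [h2, h3] at e2
      omega
    have hn1 : nAC A C b ≤ U1.card := by
      unfold nAC
      refine Finset.card_le_card_of_injOn (fun t => (t.1, b, t.2)) ?_ ?_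
      · intro t ht
        have ht' := Finset.mem_filter.mp (Finset.mem_coe.mp ht)
        have hp := Finset.mem_product.mp ht'.1
        have htr := ht'.2
        refine Finset.mem_coe.mpr (Finset.mem_filter.mpr ⟨Finset.mem_filter.mpr
          ⟨Finset.mem_product.mpr ⟨hp.1, Finset.mem_product.mpr ⟨hbB, hp.2⟩⟩, ?_⟩, rfl⟩)
        unfold Tri at htr ⊢
        simp only
        omega
      · intro s _ t _ h
        simp only [Prod.mk.injEq] at h
        exact Prod.ext h.1 h.2.2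
    have hn2 : nAB A B b g ≤ U2.card := by
      unfold nAB
      refine Finset.card_le_card_of_injOn (fun t => (t.1, t.2, g)) ?_ ?_
      · intro t ht
        have ht' := Finset.mem_filter.mp (Finset.mem_coe.mp ht)
        have hp := Finset.mem_product.mp ht'.1
        have hB := Finset.mem_erase.mp hp.2
        exact Finset.mem_coe.mpr (Finset.mem_filter.mpr ⟨Finset.mem_filter.mpr
          ⟨Finset.mem_product.mpr ⟨hp.1, Finset.mem_product.mpr ⟨hB.2, hgC⟩⟩, ht'.2⟩,
            hB.1, rfl⟩)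
      · intro s _ t _ h
        simp only [Prod.mk.injEq] at h
        exact Prod.ext h.1 h.2.1
    have hn3 : tri (pre n b g A) (pre n b g B) (pre n b g C) ≤ U3.card + Gs.card := by
      refine le_trans ?_ (Finset.card_union_le U3 Gs)
      unfold tri
      refine Finset.card_le_card_of_injOn (fun t => (sg b g t.1, sg b g t.2.1, sg b g t.2.2))
        ?_ ?_
      · intro t ht
        obtain ⟨x, y, z⟩ := t
        have ht' := Finset.mem_filter.mp (Finset.mem_coe.mp ht)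
        have hp := Finset.mem_product.mp ht'.1
        have hq := Finset.mem_product.mp hp.2
        obtain ⟨hx1, hxA⟩ := mem_pre.mp hp.1
        obtain ⟨hy1, hyB⟩ := mem_pre.mp hq.1
        obtain ⟨hz1, hzC⟩ := mem_pre.mp hq.2
        have htr := ht'.2
        simp only at hx1 hxA hy1 hyB hz1 hzC htr
        have hyb := hbmax _ hyB
        have hzg := hgmax _ hzC
        obtain ⟨_, hy2, _⟩ := sg_ne (b := b) (g := g) hbg hy1.1
        obtain ⟨_, hz2, hz3⟩ := sg_ne (b := b) (g := g) hbg hz1.1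
        have hmem : (sg b g x, sg b g y, sg b g z) ∈ A ×ˢ B ×ˢ C :=
          Finset.mem_product.mpr ⟨hxA, Finset.mem_product.mpr ⟨hyB, hzC⟩⟩
        refine Finset.mem_coe.mpr (Finset.mem_union.mpr ?_)
        by_cases hT : Tri (sg b g x) (sg b g y) (sg b g z)
        · exact Or.inl (Finset.mem_filter.mpr ⟨Finset.mem_filter.mpr ⟨hmem, hT⟩, hy2, hz3⟩)
        · refine Or.inr (Finset.mem_filter.mpr ⟨hmem, ?_⟩)
          simp only
          unfold Tri at hT htr
          revert hT hyb hzg hy2 hz3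
          unfold sg
          split_ifs <;> omega
      · intro s _ t _ h
        simp only [Prod.mk.injEq] at h
        exact Prod.ext (sg_inj h.1) (Prod.ext (sg_inj h.2.1) (sg_inj h.2.2))
    have hg : gain A B C b g = Gs.card := rfl
    have ht : tri A B C = U.card := rfl
    rw [hg, ht]
    omega

end Pool.Agent.Q268.RB.TaskDel3
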