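import Pool.Agent.Q268.RB.Stmts

set_option autoImplicit false

/-! MP_21c964_co blueprint: TaskE, the assembly of the drop inequality. -/

namespace Pool.Agent.Q268.RB

open Finset Filter Topology

private theorem sum_tail (g : ℕ) : ∀ k : ℕ,
    2 * ∑ x ∈ Ioc g (g + k), ((x : ℤ) - g) = (k : ℤ) * (k + 1)
  | 0 => by simp
  | k + 1 => by
    have ih := sum_tail g k
    rw [← Nat.add_assoc, Finset.sum_Ioc_succ_top (Nat.le_add_right g k), mul_add, ih]
    push_cast
    ring

theorem taskE (hNum : TaskNum) (hE0 : TaskE0) (hF1 : TaskF1) (hF2 : TaskF2) (hF3 : TaskF3)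
    (hG3 : TaskG3) (hS2 : TaskS2) (hH : TaskH) : TaskE := by
  intro m b g A B C hc
  obtain ⟨n1, n2, n3, n4, n5, n6, n7, n8⟩ := hNum m b g A B C hc
  have e0 := hE0 A B C b g
  have hbg := hc.bg
  have hbA : b ∉ A := fun h => (Finset.disjoint_left.1 hc.dAB) h hc.bB
  have hgA : g ∉ A := fun h => (Finset.disjoint_left.1 hc.dAC) h hc.gC
  -- splitting
  have split : ∀ f : ℕ → ℤ, ∑ x ∈ A, f x = ∑ x ∈ A.filter (fun x => x < b), f x +
      ∑ x ∈ A.filter (fun x => b < x ∧ x < g), f x + ∑ x ∈ A.filter (fun x => g < x), f x := by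
    intro f
    rw [Finset.sum_filter, Finset.sum_filter, Finset.sum_filter, ← Finset.sum_add_distrib,
      ← Finset.sum_add_distrib]
    apply Finset.sum_congr rfl
    intro x hx
    have h1 : x ≠ b := fun h => hbA (h ▸ hx)
    have h2 : x ≠ g := fun h => hgA (h ▸ hx)
    by_cases c1 : x < b
    · rw [if_pos c1, if_neg (by omega), if_neg (by omega)]
      ring
    · by_cases c2 : x < g
      · rw [if_neg c1, if_pos (by omega), if_neg (by omega)]
        ring
      · rw [if_neg c1, if_neg (by omega), if_pos (by omega)]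
        ring
  have e1 := split (ff A B C b g)
  -- first part
  have s1 : ∑ x ∈ A.filter (fun x => x < b),
      ((x : ℤ) - ((A.filter (fun t => b < t ∧ t ≤ b + x ∧ t < g)).card : ℤ)
        - ((A.filter (fun t => g < x + t ∧ t < b)).card : ℤ) - 1) ≤
      ∑ x ∈ A.filter (fun x => x < b), ff A B C b g x := by
    apply Finset.sum_le_sum
    intro x hx
    exact hF1 m b g A B C hc x (Finset.mem_filter.1 hx).1 (Finset.mem_filter.1 hx).2
  rw [Finset.sum_sub_distrib, Finset.sum_sub_distrib, Finset.sum_sub_distrib] at s1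
  have c1 : ∑ x ∈ A.filter (fun x => x < b), (1 : ℤ) = pp A b := by
    rw [Finset.sum_const, nsmul_eq_mul, mul_one]
    rfl
  rw [c1] at s1
  have g3 := hG3 m b g A B C hc
  have t2 := hS2 m b g A B C hc
  have hh := hH m b g A B C hc
  -- second part
  have s2 : ∑ x ∈ A.filter (fun x => b < x ∧ x < g),
      (2 * (m : ℤ) - ct C b (x - b) - ct B b (g - x) - max 0 (((x - b : ℕ) : ℤ) - b)
        - max 0 (((g - x : ℕ) : ℤ) - b) - 1) ≤
      ∑ x ∈ A.filter (fun x => b < x ∧ x < g), ff A B C b g x := by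
    apply Finset.sum_le_sum
    intro x hx
    obtain ⟨h1, h2, h3⟩ := Finset.mem_filter.1 hx
    exact hF2 m b g A B C hc x h1 h2 h3
  have s2' : ∑ i ∈ sh A b g, (2 * (m : ℤ) - ct C b i - ct B b (g - b - i) - max 0 ((i : ℤ) - b)
        - max 0 (((g - b - i : ℕ) : ℤ) - b) - 1) =
      ∑ x ∈ A.filter (fun x => b < x ∧ x < g),
      (2 * (m : ℤ) - ct C b (x - b) - ct B b (g - x) - max 0 (((x - b : ℕ) : ℤ) - b)
        - max 0 (((g - x : ℕ) : ℤ) - b) - 1) := by
    unfold sh
    rw [Finset.sum_image]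
    · apply Finset.sum_congr rfl
      intro x hx
      obtain ⟨h1, h2, h3⟩ := Finset.mem_filter.1 hx
      have : g - b - (x - b) = g - x := by omega
      rw [this]
    · intro x hx y hy hxy
      have hx' := (Finset.mem_filter.1 (Finset.mem_coe.1 hx)).2
      have hy' := (Finset.mem_filter.1 (Finset.mem_coe.1 hy)).2
      simp only at hxy
      omega
  -- third part
  have s3 : ∑ x ∈ A.filter (fun x => g < x), ((m : ℤ) - ((x : ℤ) - g)) ≤
      ∑ x ∈ A.filter (fun x => g < x), ff A B C b g x := by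
    apply Finset.sum_le_sum
    intro x hx
    exact hF3 m b g A B C hc x (Finset.mem_filter.1 hx).1 (Finset.mem_filter.1 hx).2
  rw [Finset.sum_sub_distrib] at s3
  have c3 : ∑ x ∈ A.filter (fun x => g < x), (m : ℤ) = ss A g * m := by
    rw [Finset.sum_const, nsmul_eq_mul]
    rfl
  rw [c3] at s3
  have hs0 : 0 ≤ ss A g := by
    unfold ss
    positivity
  have hg3m : g ≤ 3 * m := by
    have : (0 : ℤ) ≤ 3 * m - g := by rw [n4]; exact hs0
    omega
  obtain ⟨k, hk⟩ := Nat.exists_eq_add_of_le hg3m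
  have hks : (k : ℤ) = ss A g := by
    rw [← n4]
    have : ((3 * m : ℕ) : ℤ) = ((g + k : ℕ) : ℤ) := by rw [hk]
    push_cast at this
    linarith
  have c4 : ∑ x ∈ A.filter (fun x => g < x), ((x : ℤ) - g) ≤ ∑ x ∈ Ioc g (g + k), ((x : ℤ) - g) := by
    apply Finset.sum_le_sum_of_subset_of_nonneg
    · intro x hx
      obtain ⟨h1, h2⟩ := Finset.mem_filter.1 hx
      have h3 : x ∈ Icc 1 (3 * m) := by
        rw [← hc.un]
        exact Finset.mem_union_left _ (Finset.mem_union_left _ h1)
      have h4 := (Finset.mem_Icc.1 h3).2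
      rw [Finset.mem_Ioc]
      omega
    · intro x hx _
      have := (Finset.mem_Ioc.1 hx).1
      have h5 : (g : ℤ) < x := by exact_mod_cast this
      linarith
  have c5 := sum_tail g k
  rw [hks] at c5
  -- combination of the second part with `rho`
  have r1 : ∑ i ∈ sh A b g, (2 * (2 * (m : ℤ) - ct C b i - ct B b (g - b - i) - max 0 ((i : ℤ) - b)
        - max 0 (((g - b - i : ℕ) : ℤ) - b) - 1) - 2 * (pp A b - ct A b i)) =
      ∑ i ∈ sh A b g, (rho A B C b g i +
        (4 * (m : ℤ) - 2 * pp A b - 2 - 3 * qq A b g - 4 * ss A g)) := by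
    apply Finset.sum_congr rfl
    intro i _
    unfold rho
    ring
  rw [Finset.sum_sub_distrib, Finset.sum_add_distrib, Finset.sum_const, nsmul_eq_mul, n7,
    ← Finset.mul_sum, ← Finset.mul_sum, s2'] at r1
  rw [← Finset.mul_sum] at hh
  rw [e0, e1]
  have hq0 : 0 ≤ qq A b g := by
    unfold qq
    positivity
  have hp0 : 0 ≤ pp A b := by
    unfold pp
    positivity
  have hm : (m : ℤ) = pp A b + qq A b g + ss A g := n1.symm
  rw [hm] at *
  nlinarith [s1, s2, s3, c4, c5, r1, g3, t2, hh]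

end Pool.Agent.Q268.RB
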