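import Pool.Agent.Q268.RB.Stmts

set_option autoImplicit false

/-! The counts as sums over `A`. -/

namespace Pool.Agent.Q268.RB

open Finset

theorem card_prod_filter_aux {α β : Type*} (A : Finset α) (T : Finset β) (P : α → β → Prop)
    [∀ x y, Decidable (P x y)] :
    ((A ×ˢ T).filter (fun t => P t.1 t.2)).card = ∑ x ∈ A, (T.filter (fun y => P x y)).card := by
  simp only [Finset.card_filter, Finset.sum_product]

theorem taskE0 : TaskE0 := by
  intro A B C b g
  have h1 : nAC A C b = ∑ x ∈ A, (C.filter (fun z => Tri x z b)).card :=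
    card_prod_filter_aux A C (fun x z => Tri x z b)
  have h2 : nAB A B b g = ∑ x ∈ A, ((B.erase b).filter (fun y => Tri x y g)).card :=
    card_prod_filter_aux A (B.erase b) (fun x y => Tri x y g)
  have h3 : gain A B C b g = ∑ x ∈ A,
      ((B ×ˢ C).filter (fun t => g < x ∧ t.1 < b ∧ t.2 < b ∧ x = t.1 + t.2 + 1)).card :=
    card_prod_filter_aux A (B ×ˢ C) (fun x t => g < x ∧ t.1 < b ∧ t.2 < b ∧ x = t.1 + t.2 + 1)
  rw [h1, h2, h3]
  push_cast
  rw [← Finset.sum_add_distrib, ← Finset.sum_sub_distrib]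
  rfl

end Pool.Agent.Q268.RB
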