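import Pool.Agent.Q268.RB.Stmts

/-!
MP_21c964_co: task `TaskF1` of the blueprint in `Pool/Agent/Q268/RB/Stmts.lean`.
-/

set_option autoImplicit false

namespace Pool.Agent.Q268.RB

open Finset

theorem taskF1 : TaskF1 := by
  intro m b g A B C hc x hxA hxb
  have hbg := hc.bg
  have hun := hc.un
  have hsub : ∀ w, w ∈ A ∪ B ∪ C ↔ 1 ≤ w ∧ w ≤ 3 * m := by
    intro w
    rw [hun, mem_Icc]
  have hg3 : g ≤ 3 * m := ((hsub g).1 (mem_union_right _ hc.gC)).2
  have hgA : g ∉ A := fun h => (Finset.disjoint_left.1 hc.dAC) h hc.gC
  have hthird : ((B ×ˢ C).filter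
      (fun t => g < x ∧ t.1 < b ∧ t.2 < b ∧ x = t.1 + t.2 + 1)).card = 0 := by
    rw [card_eq_zero, filter_eq_empty_iff]
    rintro t _ ⟨h, _⟩
    omega
  have key : x ≤ (C.filter (fun z => Tri x z b)).card +
      ((B.erase b).filter (fun y => Tri x y g)).card +
      ((A.filter (fun t => b < t ∧ t ≤ b + x ∧ t < g)).card +
      ((A.filter (fun t => g < x + t ∧ t < b)).card + 1)) := by
    have hcard : (Ioc b (min (b + x) g) ∪ Ico (g - x) b).card = x := by
      rw [card_union_of_disjoint]
      · rw [Nat.card_Ioc, Nat.card_Ico]
        omega
      · rw [Finset.disjoint_left]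
        intro w hw hw'
        rw [mem_Ioc] at hw
        rw [mem_Ico] at hw'
        omega
    calc x = (Ioc b (min (b + x) g) ∪ Ico (g - x) b).card := hcard.symm
      _ ≤ ((C.filter (fun z => Tri x z b) ∪ (B.erase b).filter (fun y => Tri x y g)) ∪
          (A.filter (fun t => b < t ∧ t ≤ b + x ∧ t < g) ∪
            insert (g - x) (A.filter (fun t => g < x + t ∧ t < b)))).card := by
          apply card_le_card
          intro w hw
          have hw3 : 1 ≤ w ∧ w ≤ 3 * m := by
            rw [mem_union, mem_Ioc, mem_Ico] at hw
            omega
          have hw1 := (hsub w).2 hw3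
          rw [mem_union, mem_union] at hw1
          rw [mem_union, mem_Ioc, mem_Ico] at hw
          rw [mem_union, mem_union, mem_union, mem_filter, mem_filter, mem_filter, mem_insert,
            mem_filter, mem_erase]
          rcases hw1 with (hA | hB) | hC
          · right
            have hwg : w ≠ g := fun h => hgA (h ▸ hA)
            rcases hw with hw | hw
            · left
              exact ⟨hA, by omega, by omega, by omega⟩
            · right
              by_cases h : w = g - x
              · exact Or.inl h
              · exact Or.inr ⟨hA, by omega, by omega⟩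
          · left
            right
            have := hc.bmax w hB
            refine ⟨⟨?_, hB⟩, ?_, ?_, ?_⟩ <;> omega
          · left
            left
            refine ⟨hC, ?_, ?_, ?_⟩ <;> omega
      _ ≤ _ := by
          refine (card_union_le _ _).trans (add_le_add (card_union_le _ _) ?_)
          refine (card_union_le _ _).trans (add_le_add le_rfl ?_)
          exact card_insert_le _ _
  unfold ff
  rw [hthird]
  omega

end Pool.Agent.Q268.RB
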