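import Pool.Agent.Q268.RB.Stmts

set_option autoImplicit false

namespace Pool.Agent.Q268.RB

open Finset

theorem taskF2 : TaskF2 := by
  intro m b g A B C h x hx hbx hxg
  unfold ff
  have h3 : ((B ×ˢ C).filter (fun t => g < x ∧ t.1 < b ∧ t.2 < b ∧ x = t.1 + t.2 + 1)).card = 0 := by
    rw [card_eq_zero, filter_eq_empty_iff]
    intro t _ ht
    omega
  have h1 : C.card ≤ (C.filter (fun z => Tri x z b)).card +
      (C.filter (fun z => z ≤ x - b ∧ z ≤ b)).card + (x - b - b) + (g - (x + b)) := by
    have hsub : C ⊆ ((C.filter (fun z => Tri x z b) ∪ C.filter (fun z => z ≤ x - b ∧ z ≤ b)) ∪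
        Ioc b (x - b)) ∪ Ioc (x + b) g := by
      intro z hz
      have hzg := h.gmax z hz
      simp only [mem_union, mem_filter, mem_Ioc, hz, true_and]
      unfold Tri
      omega
    have e1 := card_le_card hsub
    have e2 := card_union_le ((C.filter (fun z => Tri x z b) ∪ C.filter (fun z => z ≤ x - b ∧ z ≤ b)) ∪
        Ioc b (x - b)) (Ioc (x + b) g)
    have e3 := card_union_le (C.filter (fun z => Tri x z b) ∪ C.filter (fun z => z ≤ x - b ∧ z ≤ b))
        (Ioc b (x - b))
    have e4 := card_union_le (C.filter (fun z => Tri x z b)) (C.filter (fun z => z ≤ x - b ∧ z ≤ b))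
    rw [Nat.card_Ioc] at e2 e3
    omega
  have h2 : (B.erase b).card ≤ ((B.erase b).filter (fun y => Tri x y g)).card +
      (B.filter (fun y => y ≤ g - x ∧ y ≤ b)).card := by
    have hsub : B.erase b ⊆ (B.erase b).filter (fun y => Tri x y g) ∪
        B.filter (fun y => y ≤ g - x ∧ y ≤ b) := by
      intro y hy
      have hyB := mem_of_mem_erase hy
      have hyb := h.bmax y hyB
      simp only [mem_union, mem_filter, hy, hyB, true_and]
      unfold Tri
      omega
    exact (card_le_card hsub).trans (card_union_le _ _)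
  have hb := card_erase_of_mem h.bB
  have hcB := h.cB
  have hcC := h.cC
  have hm : 1 ≤ m := by
    rw [← hcB]
    exact card_pos.2 ⟨b, h.bB⟩
  unfold ct
  rw [h3]
  have hbg := h.bg
  generalize (C.filter (fun z => Tri x z b)).card = u1 at *
  generalize (C.filter (fun z => z ≤ x - b ∧ z ≤ b)).card = u2 at *
  generalize ((B.erase b).filter (fun y => Tri x y g)).card = u3 at *
  generalize (B.filter (fun y => y ≤ g - x ∧ y ≤ b)).card = u4 at *
  omega

end Pool.Agent.Q268.RB
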