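import Pool.Agent.Q268.RB.Stmts

set_option autoImplicit false

namespace Pool.Agent.Q268.RB

open Finset

theorem taskF3 : TaskF3 := by
  intro m b g A B C h x _ hgx
  have hbg := h.bg
  have hB1 : ∀ y ∈ B, 1 ≤ y := fun y hy => by
    have : y ∈ Icc 1 (3 * m) := by
      rw [← h.un]
      simp [hy]
    exact (Finset.mem_Icc.1 this).1
  have h31 : ((B ×ˢ C).filter
      (fun t => g < x ∧ t.1 < b ∧ t.2 < b ∧ x = t.1 + t.2 + 1)).card ≤
      (C.filter (fun z => Tri x z b)).card := by
    refine Finset.card_le_card_of_injOn (fun t => t.2) ?_ ?_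
    · intro t ht
      have ht' := (Finset.mem_filter.1 (Finset.mem_coe.1 ht))
      have h1 := (Finset.mem_product.1 ht'.1).2
      have h2 := h.gmax t.2 h1
      obtain ⟨h3, h4, h5, h6⟩ := ht'.2
      refine Finset.mem_coe.2 (Finset.mem_filter.2 ⟨h1, ?_, ?_, ?_⟩) <;> dsimp only <;> omega
    · intro t ht t' ht' e
      have h1 := (Finset.mem_filter.1 (Finset.mem_coe.1 ht)).2
      have h2 := (Finset.mem_filter.1 (Finset.mem_coe.1 ht')).2
      dsimp only at e
      have h3 : t.1 = t'.1 := by omega
      exact Prod.ext h3 e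
  have h2 : m ≤ ((B.erase b).filter (fun y => Tri x y g)).card + (x - g) := by
    have hsub : B.erase b ⊆ ((B.erase b).filter (fun y => Tri x y g)) ∪ Icc 1 (x - g - 1) := by
      intro y hy
      have hyB := Finset.mem_of_mem_erase hy
      have h1 := hB1 y hyB
      have h2 := h.bmax y hyB
      rw [Finset.mem_union, Finset.mem_filter, Finset.mem_Icc]
      by_cases hc : x ≤ y + g
      · left
        refine ⟨hy, ?_, ?_, ?_⟩ <;> omega
      · right
        omega
    have hc := (Finset.card_le_card hsub).trans (Finset.card_union_le _ _)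
    rw [Finset.card_erase_of_mem h.bB, h.cB, Nat.card_Icc] at hc
    omega
  unfold ff
  have h3 : ((x - g : ℕ) : ℤ) = (x : ℤ) - g := by omega
  omega

end Pool.Agent.Q268.RB
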