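import Pool.Agent.Q268.RB.Stmts

set_option autoImplicit false

namespace Pool.Agent.Q268.RB

open Finset Filter Topology

private theorem final_bdd (n : ℕ) : BddAbove (Set.range (fun χ : ℕ → Fin 3 => rb n χ)) := by
  refine ⟨(Icc 1 n ×ˢ Icc 1 n ×ˢ Icc 1 n).card, ?_⟩
  rintro _ ⟨χ, rfl⟩
  exact card_filter_le _ _

theorem taskFinal (hU : TaskUp) (hL : TaskLb) : TaskFinal := by
  refine ⟨final_bdd, ?_⟩
  have hup : ∀ n : ℕ, ((⨆ χ : ℕ → Fin 3, rb n χ : ℕ) : ℝ) ≤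
      (3 * √3 - 5) / 6 * (n : ℝ) ^ 3 + 5 * (n : ℝ) ^ 2 := by
    intro n
    obtain ⟨χ, hχ⟩ := Nat.sSup_mem (Set.range_nonempty (fun χ : ℕ → Fin 3 => rb n χ)) (final_bdd n)
    have h1 : ((⨆ χ : ℕ → Fin 3, rb n χ : ℕ) : ℝ) = rb n χ := by
      unfold iSup
      rw [← hχ]
    rw [h1]
    exact hU n χ
  have hlo : ∀ n : ℕ, (3 * √3 - 5) / 6 * (n : ℝ) ^ 3 - 10 * (n : ℝ) ^ 2 - 10 ≤
      ((⨆ χ : ℕ → Fin 3, rb n χ : ℕ) : ℝ) := by
    intro n
    obtain ⟨χ, hχ⟩ := hL n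
    refine hχ.trans ?_
    exact_mod_cast le_ciSup (final_bdd n) χ
  have t1 : Tendsto (fun n : ℕ => ((1 : ℝ) / n)) atTop (𝓝 0) := tendsto_one_div_atTop_nhds_zero_nat
  have t2 : Tendsto (fun n : ℕ => (3 * √3 - 5) / 6 + 5 * ((1 : ℝ) / n)) atTop
      (𝓝 ((3 * √3 - 5) / 6)) := by
    have := (t1.const_mul 5).const_add ((3 * √3 - 5) / 6)
    simpa using this
  have t3 : Tendsto (fun n : ℕ => (3 * √3 - 5) / 6 - 10 * ((1 : ℝ) / n) - 10 * ((1 : ℝ) / n) ^ 3)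
      atTop (𝓝 ((3 * √3 - 5) / 6)) := by
    have h1 := (t1.const_mul 10).const_sub ((3 * √3 - 5) / 6)
    have h2 := h1.sub ((t1.pow 3).const_mul 10)
    simpa using h2
  refine tendsto_of_tendsto_of_tendsto_of_le_of_le' t3 t2 ?_ ?_
  · filter_upwards [eventually_ge_atTop 1] with n hn
    have hn0 : (0 : ℝ) < n := by exact_mod_cast hn
    rw [le_div_iff₀ (by positivity)]
    refine le_trans (le_of_eq ?_) (hlo n)
    field_simp
  · filter_upwards [eventually_ge_atTop 1] with n hn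
    have hn0 : (0 : ℝ) < n := by exact_mod_cast hn
    rw [div_le_iff₀ (by positivity)]
    refine le_trans (hup n) (le_of_eq ?_)
    field_simp

end Pool.Agent.Q268.RB
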