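import Pool.Agent.Q268.RB.Stmts

set_option autoImplicit false

namespace Pool.Agent.Q268.RB.TG3

open Finset Pool.Agent.Q268.RB

/-- `∑ min x n = ∑_{t < n} #{x > t}` -/
theorem layer (S : Finset ℕ) (n : ℕ) :
    ∑ x ∈ S, min x n = ∑ t ∈ range n, (S.filter (fun x => t < x)).card := by
  have h1 : ∀ x ∈ S, min x n = ∑ t ∈ range n, if t < x then 1 else 0 := by
    intro x hx
    rw [← Finset.sum_filter, Finset.sum_const, smul_eq_mul, mul_one]
    have : (range n).filter (fun t => t < x) = range (min x n) := by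
      ext t
      simp only [mem_filter, mem_range]
      omega
    rw [this, card_range]
  rw [Finset.sum_congr rfl h1, Finset.sum_comm]
  refine Finset.sum_congr rfl fun t _ => ?_
  rw [Finset.card_filter]

theorem gauss (p L : ℕ) (h : L ≤ p) :
    2 * ∑ t ∈ range L, max (0 : ℤ) ((p : ℤ) - t) = 2 * p * L - L * L + L := by
  induction L with
  | zero => simp
  | succ L ih =>
    rw [Finset.sum_range_succ, mul_add, ih (by omega)]
    have : max (0 : ℤ) ((p : ℤ) - L) = p - L := max_eq_right (by omega)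
    rw [this]
    push_cast
    ring

theorem gauss_ge (p L : ℕ) (h : p ≤ L) :
    (p : ℤ) * p ≤ 2 * ∑ t ∈ range L, max (0 : ℤ) ((p : ℤ) - t) := by
  have h1 := gauss p p le_rfl
  have h2 : ∑ t ∈ range p, max (0 : ℤ) ((p : ℤ) - t) ≤ ∑ t ∈ range L, max (0 : ℤ) ((p : ℤ) - t) :=
    Finset.sum_le_sum_of_subset_of_nonneg (range_subset_range.mpr h) fun _ _ _ => le_max_left _ _
  nlinarith

/-- the shifted set -/
def XX (A1 : Finset ℕ) (L : ℕ) : Finset ℕ := (A1.filter (fun x => L < x)).image (fun x => x - L)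

theorem sum_XX (A1 : Finset ℕ) (L : ℕ) : ∑ x ∈ A1, (x - L) = ∑ x ∈ XX A1 L, x := by
  unfold XX
  rw [Finset.sum_image]
  · rw [Finset.sum_filter]
    refine Finset.sum_congr rfl fun x _ => ?_
    split_ifs with h
    · rfl
    · omega
  · intro x hx y hy hxy
    have h1 := (mem_filter.mp hx).2
    have h2 := (mem_filter.mp hy).2
    simp only at hxy
    omega

theorem mem_XX (A1 : Finset ℕ) (L x : ℕ) : x ∈ XX A1 L ↔ 0 < x ∧ x + L ∈ A1 := by
  unfold XX
  simp only [mem_image, mem_filter]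
  constructor
  · rintro ⟨y, ⟨hy, h1⟩, rfl⟩
    refine ⟨by omega, ?_⟩
    rw [Nat.sub_add_cancel h1.le]
    exact hy
  · rintro ⟨h1, h2⟩
    exact ⟨x + L, ⟨h2, by omega⟩, by omega⟩

theorem card_XX (A1 : Finset ℕ) (L : ℕ) : (XX A1 L).card = (A1.filter (fun x => L < x)).card := by
  unfold XX
  refine Finset.card_image_of_injOn ?_
  intro x hx y hy hxy
  have h1 := (mem_filter.mp hx).2
  have h2 := (mem_filter.mp hy).2
  simp only at hxy
  omega

theorem pairs (A1 : Finset ℕ) (b g L : ℕ) (hL : g = b + L) (hb : ∀ x ∈ A1, x < b) :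
    ∑ x ∈ A1, (A1.filter (fun t => g < x + t)).card ≤
      ((XX A1 L ×ˢ XX A1 L).filter (fun t => b - L < t.1 + t.2)).card := by
  have h1 : ∑ x ∈ A1, (A1.filter (fun t => g < x + t)).card =
      ((A1 ×ˢ A1).filter (fun t => g < t.1 + t.2)).card := by
    rw [Finset.card_filter, Finset.sum_product]
    refine Finset.sum_congr rfl fun x _ => ?_
    rw [Finset.card_filter]
  rw [h1]
  refine Finset.card_le_card_of_injOn (fun t => (t.1 - L, t.2 - L)) ?_ ?_
  · intro t ht
    have ht' := Finset.mem_filter.mp (Finset.mem_coe.mp ht)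
    obtain ⟨hA, hg⟩ := ht'
    obtain ⟨hA1, hA2⟩ := Finset.mem_product.mp hA
    have b1 := hb _ hA1
    have b2 := hb _ hA2
    refine Finset.mem_coe.mpr (Finset.mem_filter.mpr ⟨Finset.mem_product.mpr ⟨?_, ?_⟩, ?_⟩)
    · rw [mem_XX]
      refine ⟨by show 0 < t.1 - L; omega, ?_⟩
      show t.1 - L + L ∈ A1
      rw [Nat.sub_add_cancel (by omega)]
      exact hA1
    · rw [mem_XX]
      refine ⟨by show 0 < t.2 - L; omega, ?_⟩
      show t.2 - L + L ∈ A1
      rw [Nat.sub_add_cancel (by omega)]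
      exact hA2
    · show b - L < t.1 - L + (t.2 - L)
      omega
  · intro t ht s hs hts
    have ht' := Finset.mem_filter.mp (Finset.mem_coe.mp ht)
    obtain ⟨hA, hg⟩ := ht'
    obtain ⟨hA1, hA2⟩ := Finset.mem_product.mp hA
    have hs' := Finset.mem_filter.mp (Finset.mem_coe.mp hs)
    obtain ⟨hA', hg'⟩ := hs'
    obtain ⟨hA1', hA2'⟩ := Finset.mem_product.mp hA'
    have b1 := hb _ hA1
    have b2 := hb _ hA2
    have b3 := hb _ hA1'
    have b4 := hb _ hA2'
    have e1 : t.1 - L = s.1 - L := congrArg Prod.fst hts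
    have e2 : t.2 - L = s.2 - L := congrArg Prod.snd hts
    exact Prod.ext (by omega) (by omega)

end Pool.Agent.Q268.RB.TG3

namespace Pool.Agent.Q268.RB

open Finset Pool.Agent.Q268.RB.TG3

theorem taskG3 (hNum : TaskNum) (hGc : TaskGc) (hGs : TaskGs) : TaskG3 := by
  intro m b g A B C h
  obtain ⟨n1, n2, n3, n4, n5, n6, n7, n8⟩ := hNum m b g A B C h
  have hbA : b ∉ A := fun hb => (Finset.disjoint_left.mp h.dAB) hb h.bB
  have hA1le : ∀ x ∈ A, 1 ≤ x := by
    intro x hx
    have : x ∈ Icc 1 (3 * m) := by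
      rw [← h.un]
      exact mem_union_left _ (mem_union_left _ hx)
    exact (mem_Icc.mp this).1
  obtain ⟨L, hL⟩ : ∃ L, g = b + L := ⟨g - b, by have := h.bg; omega⟩
  have hgb : g - b = L := by omega
  rw [hgb]
  set A1 : Finset ℕ := A.filter (fun x => x < b) with hA1
  have hb : ∀ x ∈ A1, x < b := fun x hx => (mem_filter.mp hx).2
  have hp : pp A b = (A1.card : ℤ) := rfl
  -- r and ct
  have hct : ∀ t : ℕ, ct A b t + ((A1.filter (fun x => t < x)).card : ℤ) = (A1.card : ℤ) := by
    intro t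
    have e1 : A.filter (fun x => x ≤ t ∧ x ≤ b) = A1.filter (fun x => ¬ t < x) := by
      ext x
      simp only [hA1, mem_filter, not_lt]
      constructor
      · rintro ⟨h1, h2, h3⟩
        refine ⟨⟨h1, lt_of_le_of_ne h3 ?_⟩, h2⟩
        rintro rfl
        exact hbA h1
      · rintro ⟨⟨h1, h2⟩, h3⟩
        exact ⟨h1, h3, h2.le⟩
    have e2 := Finset.card_filter_add_card_filter_not (s := A1) (fun x => t < x)
    unfold ct
    rw [e1]
    omega
  have hctle : ∀ t : ℕ, ct A b t ≤ t := by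
    intro t
    unfold ct
    have : (A.filter (fun x => x ≤ t ∧ x ≤ b)).card ≤ (Icc 1 t).card := by
      refine Finset.card_le_card fun x hx => ?_
      obtain ⟨h1, h2, h3⟩ := mem_filter.mp hx
      exact mem_Icc.mpr ⟨hA1le x h1, h2⟩
    rw [Nat.card_Icc] at this
    omega
  have hdel : ∀ t : ℕ, ((A1.filter (fun x => t < x)).card : ℤ) =
      del A b t + max (0 : ℤ) ((A1.card : ℤ) - t) := by
    intro t
    have := hct t
    unfold del
    rw [hp]
    rcases le_total (A1.card : ℤ) t with h1 | h1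
    · rw [min_eq_left h1, max_eq_left (by omega)]
      omega
    · rw [min_eq_right h1, max_eq_right (by omega)]
      omega
  -- the sum
  have hsum : ∑ x ∈ A1, (x : ℤ) = ∑ t ∈ range L, del A b t +
      ∑ t ∈ range L, max (0 : ℤ) ((A1.card : ℤ) - t) + ∑ x ∈ XX A1 L, (x : ℤ) := by
    have e1 : ∑ x ∈ A1, x = ∑ x ∈ A1, min x L + ∑ x ∈ A1, (x - L) := by
      rw [← Finset.sum_add_distrib]
      refine Finset.sum_congr rfl fun x _ => ?_
      omega
    rw [layer, sum_XX] at e1
    have e2 : (∑ x ∈ A1, (x : ℤ)) = ∑ t ∈ range L, ((A1.filter (fun x => t < x)).card : ℤ) +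
        ∑ x ∈ XX A1 L, (x : ℤ) := by
      have e3 := congrArg (Nat.cast : ℕ → ℤ) e1
      push_cast at e3
      exact e3
    rw [e2, Finset.sum_congr rfl fun t _ => hdel t, Finset.sum_add_distrib]
  have hXsub : XX A1 L ⊆ Icc 1 (b - L) := by
    intro x hx
    rw [mem_XX] at hx
    have := hb _ hx.2
    rw [mem_Icc]
    omega
  have hgs := hGs (b - L) (XX A1 L) hXsub
  have hpairs : ∑ x ∈ A1, ((A.filter (fun t => g < x + t ∧ t < b)).card : ℤ) ≤
      (((XX A1 L ×ˢ XX A1 L).filter (fun t => b - L < t.1 + t.2)).card : ℤ) := by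
    have e1 : ∀ x ∈ A1, (A.filter (fun t => g < x + t ∧ t < b)).card =
        (A1.filter (fun t => g < x + t)).card := by
      intro x _
      congr 1
      ext t
      simp only [hA1, mem_filter]
      tauto
    have e2 := pairs A1 b g L hL hb
    rw [← Finset.sum_congr rfl e1] at e2
    exact_mod_cast e2
  have hgs' : ∑ x ∈ XX A1 L, (x : ℤ) =
      (((XX A1 L ×ˢ (Icc 1 (b - L) \ XX A1 L)).filter (fun t => b - L < t.1 + t.2)).card : ℤ) +
      (((XX A1 L ×ˢ XX A1 L).filter (fun t => b - L < t.1 + t.2)).card : ℤ) := by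
    have e3 := congrArg (Nat.cast : ℕ → ℤ) hgs
    push_cast at e3
    exact e3
  rw [hsum, hgs', hp]
  rcases le_total A1.card L with hcase | hcase
  · have := gauss_ge A1.card L hcase
    have h0 : (0 : ℤ) ≤ (((XX A1 L ×ˢ (Icc 1 (b - L) \ XX A1 L)).filter
      (fun t => b - L < t.1 + t.2)).card : ℤ) := Int.natCast_nonneg _
    nlinarith
  · have hg := gauss A1.card L hcase
    have hcard : ((XX A1 L).card : ℤ) = (A1.card : ℤ) - ct A b L := by
      rw [card_XX]
      have := hct L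
      omega
    have hc1 := hctle L
    have hc0 : 0 ≤ ct A b L := Int.natCast_nonneg _
    have hq0 : 0 ≤ qq A b g := Int.natCast_nonneg _
    have hs0 : 0 ≤ ss A g := Int.natCast_nonneg _
    have hpc : 0 ≤ pp C b := Int.natCast_nonneg _
    rw [hp] at n1 n3
    have hk := hGc (b - L) (A1.card - L) (XX A1 L) hXsub (by omega) (by omega) (by omega)
    have hk' : ((A1.card : ℤ) - L) ^ 2 ≤ 2 * (((XX A1 L ×ˢ (Icc 1 (b - L) \ XX A1 L)).filter
      (fun t => b - L < t.1 + t.2)).card : ℤ) := by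
      have : (((A1.card - L : ℕ) : ℤ)) = (A1.card : ℤ) - L := by omega
      rw [← this]
      exact_mod_cast hk
    have hL0 : (0 : ℤ) ≤ L := Int.natCast_nonneg _
    nlinarith

end Pool.Agent.Q268.RB
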