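import Pool.Agent.Q268.RB.Stmts

/-!
MP_21c964_co, blueprint of helper268: pairs of opposite classes with large sum (task TaskGc).
-/

set_option autoImplicit false

namespace Pool.Agent.Q268.RB.Gc

open Finset

/-- the sets with `1` and `n + 2` removed, shifted -/
def sft (n : ℕ) (X : Finset ℕ) : Finset ℕ := (Icc 1 n).filter (fun i => i + 1 ∈ X)

theorem card_sft (n : ℕ) (X : Finset ℕ) (hX : X ⊆ Icc 1 (n + 2)) :
    X.card = (sft n X).card + (if 1 ∈ X then 1 else 0) + (if n + 2 ∈ X then 1 else 0) := by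
  have e : (X.erase 1).erase (n + 2) = (sft n X).map ⟨fun i => i + 1, add_left_injective 1⟩ := by
    ext x
    simp only [mem_erase, sft, mem_map, mem_filter, mem_Icc, Function.Embedding.coeFn_mk]
    constructor
    · rintro ⟨h1, h2, h3⟩
      have h4 := mem_Icc.1 (hX h3)
      refine ⟨x - 1, ⟨⟨by omega, by omega⟩, ?_⟩, by omega⟩
      rw [show x - 1 + 1 = x by omega]
      exact h3
    · rintro ⟨i, ⟨⟨h1, h2⟩, h3⟩, rfl⟩
      exact ⟨by omega, by omega, h3⟩
  have c : ((X.erase 1).erase (n + 2)).card = (sft n X).card := by rw [e, card_map]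
  have c2 : ((X.erase 1).erase (n + 2)).card + (if n + 2 ∈ X then 1 else 0) =
      (X.erase 1).card := by
    split_ifs with h
    · exact card_erase_add_one (mem_erase.2 ⟨by omega, h⟩)
    · rw [erase_eq_of_notMem (fun h' => h (mem_of_mem_erase h')), add_zero]
  have c1 : (X.erase 1).card + (if 1 ∈ X then 1 else 0) = X.card := by
    split_ifs with h
    · exact card_erase_add_one h
    · rw [erase_eq_of_notMem h, add_zero]
  omega

/-- the number of pairs -/
def N (h : ℕ) (X : Finset ℕ) : ℕ :=
  ((X ×ˢ (Icc 1 h \ X)).filter (fun t => h < t.1 + t.2)).card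

theorem N_step (n : ℕ) (X : Finset ℕ) (hX : X ⊆ Icc 1 (n + 2)) :
    N n (sft n X) + (if n + 2 ∈ X then (Icc 1 (n + 2) \ X).card else X.card) ≤ N (n + 2) X := by
  classical
  set Y := Icc 1 (n + 2) \ X with hY
  set S' := ((sft n X ×ˢ (Icc 1 n \ sft n X)).filter (fun t => n < t.1 + t.2)) with hS'
  let f : ℕ × ℕ ↪ ℕ × ℕ := ⟨fun t => (t.1 + 1, t.2 + 1), fun a b h => by
    simp only [Prod.mk.injEq, add_left_inj] at h
    exact Prod.ext h.1 h.2⟩
  let T : Finset (ℕ × ℕ) := if n + 2 ∈ X then {n + 2} ×ˢ Y else X ×ˢ {n + 2}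
  have hT : T.card = (if n + 2 ∈ X then Y.card else X.card) := by
    simp only [T]
    split_ifs
    · rw [card_product, card_singleton, one_mul]
    · rw [card_product, card_singleton, mul_one]
  have hd : Disjoint (S'.map f) T := by
    rw [disjoint_left]
    rintro ⟨a, b⟩ h1 h2
    rw [mem_map] at h1
    obtain ⟨⟨i, j⟩, hij, he⟩ := h1
    simp only [f, Function.Embedding.coeFn_mk, Prod.mk.injEq] at he
    obtain ⟨rfl, rfl⟩ := he
    simp only [hS', sft, mem_filter, mem_product, mem_sdiff, mem_Icc] at hij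
    simp only [T] at h2
    split_ifs at h2 <;> simp only [mem_product, mem_singleton] at h2 <;> omega
  have hsub : S'.map f ∪ T ⊆ (X ×ˢ Y).filter (fun t => n + 2 < t.1 + t.2) := by
    rintro ⟨a, b⟩ h
    rw [mem_union] at h
    rcases h with h | h
    · rw [mem_map] at h
      obtain ⟨⟨i, j⟩, hij, he⟩ := h
      simp only [f, Function.Embedding.coeFn_mk, Prod.mk.injEq] at he
      obtain ⟨rfl, rfl⟩ := he
      simp only [hS', sft, mem_filter, mem_product, mem_sdiff, mem_Icc] at hij
      simp only [hY, mem_filter, mem_product, mem_sdiff, mem_Icc]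
      obtain ⟨⟨⟨h1, h2⟩, h3, h4⟩, h5⟩ := hij
      exact ⟨⟨h2, ⟨by omega, by omega⟩, fun h6 => h4 ⟨h3, h6⟩⟩, by omega⟩
    · simp only [T] at h
      split_ifs at h with hc
      · simp only [mem_product, mem_singleton] at h
        obtain ⟨rfl, hb⟩ := h
        have := mem_Icc.1 (mem_sdiff.1 hb).1
        simp only [mem_filter, mem_product]
        exact ⟨⟨hc, hb⟩, by omega⟩
      · simp only [mem_product, mem_singleton] at h
        obtain ⟨ha, rfl⟩ := h
        have := mem_Icc.1 (hX ha)
        simp only [hY, mem_filter, mem_product, mem_sdiff, mem_Icc]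
        exact ⟨⟨ha, ⟨by omega, le_refl _⟩, hc⟩, by omega⟩
  have := card_le_card hsub
  rw [card_union_of_disjoint hd, card_map, hT] at this
  exact this

theorem aux : ∀ (h k : ℕ) (X : Finset ℕ), X ⊆ Icc 1 h → k ≤ X.card → k + X.card ≤ h →
    3 * k ≤ h → k ^ 2 ≤ 2 * N h X := by
  intro h
  induction h using Nat.strong_induction_on with
  | _ h ih =>
    intro k X hX hk hk2 hk3
    rcases Nat.eq_zero_or_pos k with rfl | hkp
    · simp
    obtain ⟨n, rfl⟩ : ∃ n, h = n + 2 := ⟨h - 2, by omega⟩
    have hX' : sft n X ⊆ Icc 1 n := filter_subset _ _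
    have hc := card_sft n X hX
    have hN := N_step n X hX
    have hYc : (Icc 1 (n + 2) \ X).card = n + 2 - X.card := by
      rw [card_sdiff_of_subset hX, Nat.card_Icc]
      omega
    have hi : ∀ k' : ℕ, k' ≤ (sft n X).card → k' + (sft n X).card ≤ n → 3 * k' ≤ n →
        k' ^ 2 ≤ 2 * N n (sft n X) := fun k' h1 h2 h3 => ih n (by omega) k' _ hX' h1 h2 h3
    rw [hYc] at hN
    by_cases h1 : 1 ∈ X <;> by_cases h2 : n + 2 ∈ X
    · rw [if_pos h1, if_pos h2] at hc
      rw [if_pos h2] at hN
      rcases Nat.lt_or_ge k X.card with hlt | hge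
      · obtain ⟨j, rfl⟩ : ∃ j, k = j + 1 := ⟨k - 1, by omega⟩
        have := hi j (by omega) (by omega) (by omega)
        have h5 : j + 1 ≤ n + 2 - X.card := by omega
        nlinarith
      · obtain ⟨j, rfl⟩ : ∃ j, k = j + 2 := ⟨k - 2, by omega⟩
        have := hi j (by omega) (by omega) (by omega)
        have h5 : 2 * (j + 2) ≤ n + 2 - X.card := by omega
        nlinarith
    · rw [if_pos h1, if_neg h2] at hc
      rw [if_neg h2] at hN
      obtain ⟨j, rfl⟩ : ∃ j, k = j + 1 := ⟨k - 1, by omega⟩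
      have := hi j (by omega) (by omega) (by omega)
      nlinarith
    · rw [if_neg h1, if_pos h2] at hc
      rw [if_pos h2] at hN
      obtain ⟨j, rfl⟩ : ∃ j, k = j + 1 := ⟨k - 1, by omega⟩
      have := hi j (by omega) (by omega) (by omega)
      have h5 : j + 1 ≤ n + 2 - X.card := by omega
      nlinarith
    · rw [if_neg h1, if_neg h2] at hc
      rw [if_neg h2] at hN
      have hY2 : X.card + 2 ≤ n + 2 := by
        have : X.card ≤ (Icc 1 n).card := by
          rw [hc]
          simpa using card_le_card hX'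
        rw [Nat.card_Icc] at this
        omega
      rcases Nat.lt_or_ge k (n + 2 - X.card) with hlt | hge
      · obtain ⟨j, rfl⟩ : ∃ j, k = j + 1 := ⟨k - 1, by omega⟩
        have := hi j (by omega) (by omega) (by omega)
        nlinarith
      · obtain ⟨j, rfl⟩ : ∃ j, k = j + 2 := ⟨k - 2, by omega⟩
        have := hi j (by omega) (by omega) (by omega)
        have h5 : 2 * (j + 2) ≤ X.card := by omega
        nlinarith

theorem main : Pool.Agent.Q268.RB.TaskGc := fun h k X h1 h2 h3 h4 => aux h k X h1 h2 h3 h4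

end Pool.Agent.Q268.RB.Gc
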