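import Pool.Agent.Q268.RB.Stmts

set_option autoImplicit false

namespace Pool.Agent.Q268.RB

open Finset

theorem taskGs : TaskGs := by
  intro h X hX
  rw [Finset.card_filter, Finset.card_filter, Finset.sum_product, Finset.sum_product,
    ← Finset.sum_add_distrib]
  refine Finset.sum_congr rfl fun x hx => ?_
  simp only
  rw [Finset.sum_sdiff hX, ← Finset.card_filter]
  have hx' := Finset.mem_Icc.mp (hX hx)
  have : (Icc 1 h).filter (fun y => h < x + y) = Icc (h - x + 1) h := by
    ext y
    simp only [mem_filter, mem_Icc]
    omega
  rw [this, Nat.card_Icc]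
  omega

end Pool.Agent.Q268.RB
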