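import Pool.Agent.Q268.RB.Stmts

set_option autoImplicit false

namespace Pool.Agent.Q268.RB

open Finset

private lemma ct_le_pp {A : Finset ℕ} {b : ℕ} (hb : b ∉ A) (t : ℕ) : ct A b t ≤ pp A b := by
  unfold ct pp
  have : (A.filter (fun x => x ≤ t ∧ x ≤ b)).card ≤ (A.filter (fun x => x < b)).card := by
    apply card_le_card
    intro x hx
    rw [mem_filter] at hx ⊢
    refine ⟨hx.1, lt_of_le_of_ne hx.2.2 ?_⟩
    rintro rfl
    exact hb hx.1
  exact_mod_cast this

private lemma ct_le {A : Finset ℕ} {b n : ℕ} (hA : A ⊆ Icc 1 n) (t : ℕ) : ct A b t ≤ t := by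
  unfold ct
  have : (A.filter (fun x => x ≤ t ∧ x ≤ b)).card ≤ (Icc 1 t).card := by
    apply card_le_card
    intro x hx
    rw [mem_filter] at hx
    have := mem_Icc.1 (hA hx.1)
    exact mem_Icc.2 ⟨this.1, hx.2.1⟩
  rw [Nat.card_Icc] at this
  have h2 : (A.filter (fun x => x ≤ t ∧ x ≤ b)).card ≤ t := by omega
  exact_mod_cast h2

private lemma ct_nonneg (A : Finset ℕ) (b t : ℕ) : 0 ≤ ct A b t := by
  unfold ct; positivity

theorem taskH (hNum : TaskNum) (hOne : TaskOne) (hBoth : TaskBoth) (hSum : TaskSumH) : TaskH := by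
  intro m b g A B C h
  obtain ⟨n1, n2, n3, n4, n5, n6, n7, n8⟩ := hNum m b g A B C h
  have hbg := h.bg
  have hbA : b ∉ A := fun hb => (Finset.disjoint_left.1 h.dAB) hb h.bB
  have hA : A ⊆ Icc 1 (3 * m) := by
    rw [← h.un]
    exact (subset_union_left).trans subset_union_left
  have hm : 1 ≤ m := by
    rw [← h.cB]
    exact card_pos.2 ⟨b, h.bB⟩
  have hI : sh A b g ⊆ range (g - b + 1) := by
    intro x hx
    have := mem_Icc.1 (n8 hx)
    rw [mem_range]
    omega
  have hd : ∀ i ≤ g - b, 0 ≤ del A b i := by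
    intro i _
    unfold del
    have h1 := ct_le_pp hbA i
    have h2 := ct_le (b := b) hA i
    have : ct A b i ≤ min (pp A b) i := le_min h1 h2
    linarith
  have h1 := hSum (g - b) (sh A b g) (del A b) (rho A B C b g) hI hd
    (by
      intro i j hij
      rw [n7]
      exact hOne m b g A B C h i j hij)
    (by
      intro i j hij
      rw [n7]
      exact hBoth m b g A B C h i j hij)
  rw [sum_range_succ] at h1
  have hp0 : 0 ≤ pp A b := by unfold pp; positivity
  have hs0 : 0 ≤ ss A g := by unfold ss; positivity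
  have hq0 : 0 ≤ qq A b g := by unfold qq; positivity
  have hc0 : 0 ≤ pp C b := by unfold pp; positivity
  have hdL : del A b (g - b) ≤ m := by
    unfold del
    have h1 := ct_nonneg A b (g - b)
    have h2 : min (pp A b) ((g - b : ℕ) : ℤ) ≤ pp A b := min_le_left _ _
    linarith
  have hL : ((g - b : ℕ) : ℤ) = (g : ℤ) - b := by
    push_cast [hbg.le]; ring
  rw [hL] at h1
  have hm' : (1 : ℤ) ≤ m := by exact_mod_cast hm
  have hLm : (g : ℤ) - b ≤ 2 * m := by linarith
  linarith

end Pool.Agent.Q268.RB
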