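import Pool.Agent.Q268.RB.Stmts

set_option autoImplicit false

namespace Pool.Agent.Q268.RB

open Finset

private theorem int_sum1 (n : ℕ) : 2 * ∑ i ∈ range n, (i + 1) = n * (n + 1) := by
  induction n with
  | zero => simp
  | succ n ih =>
    rw [sum_range_succ, mul_add, ih]
    ring

private theorem int_sum2 (a : ℕ) :
    6 * ∑ x ∈ range a, ∑ i ∈ range (x + 1), (i + 1) = a * (a + 1) * (a + 2) := by
  induction a with
  | zero => simp
  | succ a ih =>
    rw [sum_range_succ, mul_add, ih]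
    have h := int_sum1 (a + 1)
    have h2 : 6 * ∑ i ∈ range (a + 1), (i + 1) = 3 * ((a + 1) * (a + 1 + 1)) := by
      rw [← h]; ring
    rw [h2]
    ring

theorem taskInt : TaskInt := by
  intro a b c
  rw [← int_sum2 a]
  refine Nat.mul_le_mul_left 6 ?_
  let S : Finset (Σ _ : ℕ, Σ _ : ℕ, ℕ) :=
    (range a).sigma fun x => (range (x + 1)).sigma fun i => range (i + 1)
  have hS : S.card = ∑ x ∈ range a, ∑ i ∈ range (x + 1), (i + 1) := by
    simp [S, card_sigma]
  rw [← hS]
  let f : (Σ _ : ℕ, Σ _ : ℕ, ℕ) → ℕ × ℕ × ℕ :=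
    fun p => (p.1 + 1, a + b - p.2.2, a + b + (p.1 + 1) - p.2.1)
  refine le_trans (card_le_card (t := S.image f) ?_) card_image_le
  rintro ⟨x, y, z⟩ h
  rw [mem_filter, mem_product, mem_product] at h
  obtain ⟨⟨hx, hy, hz⟩, -, -, h3⟩ := h
  simp only [mem_Icc, mem_Ioc] at hx hy hz
  simp only at h3
  rw [mem_image]
  refine ⟨⟨x - 1, a + b + x - z, a + b - y⟩, ?_, ?_⟩
  · simp only [S, mem_sigma, mem_range]
    omega
  · simp only [f, Prod.mk.injEq]
    omega

end Pool.Agent.Q268.RB
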