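import Pool.Agent.Q268.RB.Stmts

set_option autoImplicit false

namespace Pool.Agent.Q268.RB.TaskLb

open Finset Filter Topology Pool.Agent.Q268.RB

/-- three intervals -/
def chi (a b : ℕ) : ℕ → Fin 3 := fun x => if x ≤ a then 0 else if x ≤ a + b then 1 else 2

theorem mem_cl (n : ℕ) (χ : ℕ → Fin 3) (k : Fin 3) (x : ℕ) :
    x ∈ cl n χ k ↔ (1 ≤ x ∧ x ≤ n) ∧ χ x = k := by
  unfold cl
  rw [Finset.mem_filter, Finset.mem_Icc]

theorem chi0 (a b x : ℕ) : chi a b x = 0 ↔ x ≤ a := by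
  unfold chi
  by_cases h1 : x ≤ a
  · simp [h1]
  · by_cases h2 : x ≤ a + b <;> simp [h1, h2]

theorem chi1 (a b x : ℕ) : chi a b x = 1 ↔ a < x ∧ x ≤ a + b := by
  unfold chi
  by_cases h1 : x ≤ a
  · simp [h1]
  · by_cases h2 : x ≤ a + b
    · simp [h1, h2]; omega
    · simp [h1, h2]

theorem chi2 (a b x : ℕ) : chi a b x = 2 ↔ a + b < x := by
  unfold chi
  by_cases h1 : x ≤ a
  · simp [h1]; omega
  · by_cases h2 : x ≤ a + b
    · simp [h1, h2]
    · simp [h1, h2]; omega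

theorem cl0 (a b c : ℕ) : cl (a + b + c) (chi a b) 0 = Icc 1 a := by
  ext x
  rw [mem_cl, chi0, Finset.mem_Icc]
  omega

theorem cl1 (a b c : ℕ) : cl (a + b + c) (chi a b) 1 = Ioc a (a + b) := by
  ext x
  rw [mem_cl, chi1, Finset.mem_Ioc]
  omega

theorem cl2 (a b c : ℕ) : cl (a + b + c) (chi a b) 2 = Ioc (a + b) (a + b + c) := by
  ext x
  rw [mem_cl, chi2, Finset.mem_Ioc]
  omega

theorem real_ineq (s N a b c α β : ℝ) (hs2 : s ^ 2 = 3) (hs1 : 1.73 ≤ s) (hs3 : s ≤ 1.733)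
    (hN : 10 ≤ N) (hα : α = (2 - s) * N) (hβ : β = (s - 1) * N / 2) (ha0 : 0 ≤ a)
    (ha : a ≤ α) (ha' : α - 1 ≤ a) (hb' : β - 1 ≤ b) (hc : β ≤ c) :
    (3 * s - 5) / 6 * N ^ 3 - 10 * N ^ 2 - 10 ≤ a * b * c - a * (a + 1) * (a + 2) / 6 := by
  have hα0 : 1 ≤ α := by rw [hα]; nlinarith
  have hβ0 : 1 ≤ β := by rw [hβ]; nlinarith
  have hαN : α ≤ N := by rw [hα]; nlinarith
  have hβN : β ≤ N := by rw [hβ]; nlinarith
  have h1 : (α - 1) * (β - 1) ≤ a * b :=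
    mul_le_mul ha' hb' (by linarith) ha0
  have h2 : (α - 1) * (β - 1) * β ≤ a * b * c :=
    mul_le_mul h1 hc (by linarith) (le_trans (mul_nonneg (by linarith) (by linarith)) h1)
  have h3 : a * (a + 1) * (a + 2) ≤ α * (α + 1) * (α + 2) := by gcongr
  have hid : α * β ^ 2 - α ^ 3 / 6 = (3 * s - 5) / 6 * N ^ 3 := by
    rw [hα, hβ]
    linear_combination (-s / 12 * N ^ 3) * hs2
  have e1 : α * β ≤ N * N := mul_le_mul hαN hβN (by linarith) (by linarith)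
  have e2 : β * β ≤ N * N := mul_le_mul hβN hβN (by linarith) (by linarith)
  have e3 : α * α ≤ N * N := mul_le_mul hαN hαN (by linarith) (by linarith)
  have e4 : (α - 1) * (β - 1) * β = α * β ^ 2 - α * β - β * β + β := by ring
  have e5 : α * (α + 1) * (α + 2) = α ^ 3 + 3 * (α * α) + 2 * α := by ring
  nlinarith [h2, h3, hid, e1, e2, e3, e4, e5]

theorem main (hC : TaskCount) (hI : TaskInt) : Pool.Agent.Q268.RB.TaskLb := by
  intro n
  obtain ⟨s, hs⟩ : ∃ s : ℝ, s = √3 := ⟨_, rfl⟩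
  rw [← hs]
  have hs2 : s ^ 2 = 3 := by rw [hs]; exact Real.sq_sqrt (by norm_num)
  have hs0 : 0 ≤ s := by rw [hs]; exact Real.sqrt_nonneg _
  have hs1 : 1.73 ≤ s := by nlinarith
  have hs3 : s ≤ 1.733 := by nlinarith
  have hN0 : (0 : ℝ) ≤ n := Nat.cast_nonneg n
  rcases le_or_gt n 10 with hn | hn
  · refine ⟨fun _ => 0, ?_⟩
    have hn' : (n : ℝ) ≤ 10 := by exact_mod_cast hn
    have h0 : (0 : ℝ) ≤ (rb n (fun _ => 0) : ℝ) := Nat.cast_nonneg _
    have h1 : (3 * s - 5) / 6 * (n : ℝ) ^ 3 ≤ 1 * (n : ℝ) ^ 3 := by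
      apply mul_le_mul_of_nonneg_right _ (by positivity)
      linarith
    have h2 : (n : ℝ) ^ 3 ≤ 10 * (n : ℝ) ^ 2 := by
      have : (n : ℝ) ^ 3 = n * (n : ℝ) ^ 2 := by ring
      rw [this]
      exact mul_le_mul_of_nonneg_right hn' (by positivity)
    linarith
  · obtain ⟨a, haD⟩ : ∃ a : ℕ, a = ⌊(2 - s) * (n : ℝ)⌋₊ := ⟨_, rfl⟩
    obtain ⟨b, hbD⟩ : ∃ b : ℕ, b = ⌊(s - 1) * (n : ℝ) / 2⌋₊ := ⟨_, rfl⟩
    have ha : (a : ℝ) ≤ (2 - s) * n := by
      rw [haD]; exact Nat.floor_le (mul_nonneg (by linarith) hN0)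
    have ha' : (2 - s) * n < a + 1 := by rw [haD]; exact Nat.lt_floor_add_one _
    have hb : (b : ℝ) ≤ (s - 1) * n / 2 := by
      rw [hbD]; exact Nat.floor_le (div_nonneg (mul_nonneg (by linarith) hN0) (by norm_num))
    have hb' : (s - 1) * n / 2 < b + 1 := by rw [hbD]; exact Nat.lt_floor_add_one _
    have hab : a + b ≤ n := by
      have : (a : ℝ) + b ≤ n := by nlinarith
      exact_mod_cast this
    obtain ⟨c, hc⟩ : ∃ c, n = a + b + c := ⟨n - (a + b), by omega⟩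
    refine ⟨chi a b, ?_⟩
    have hcount := hC n (chi a b)
    have e0 : cl n (chi a b) 0 = Icc 1 a := by rw [hc]; exact cl0 a b c
    have e1 : cl n (chi a b) 1 = Ioc a (a + b) := by rw [hc]; exact cl1 a b c
    have e2 : cl n (chi a b) 2 = Ioc (a + b) (a + b + c) := by rw [hc]; exact cl2 a b c
    rw [e0, e1, e2, Nat.card_Icc, Nat.card_Ioc, Nat.card_Ioc] at hcount
    have hint := hI a b c
    have q1 : a + 1 - 1 = a := by omega
    have q2 : a + b - a = b := by omega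
    have q3 : a + b + c - (a + b) = c := by omega
    rw [q1, q2, q3] at hcount
    have r1 : (rb n (chi a b) : ℝ) + (tri (Icc 1 a) (Ioc a (a + b)) (Ioc (a + b) (a + b + c)) : ℝ)
        = (a : ℝ) * b * c := by exact_mod_cast hcount
    have r2 : 6 * (tri (Icc 1 a) (Ioc a (a + b)) (Ioc (a + b) (a + b + c)) : ℝ) ≤
        (a : ℝ) * (a + 1) * (a + 2) := by exact_mod_cast hint
    have hcR : (n : ℝ) = a + b + c := by exact_mod_cast hc
    have hn' : (10 : ℝ) ≤ n := by exact_mod_cast hn.le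
    have key := real_ineq s n a b c ((2 - s) * n) ((s - 1) * n / 2) hs2 hs1 hs3 hn' rfl rfl
      (Nat.cast_nonneg a) ha (by linarith) (by linarith) (by nlinarith)
    linarith

end Pool.Agent.Q268.RB.TaskLb
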