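import Pool.Agent.Q268.RB.Stmts

set_option autoImplicit false

namespace Pool.Agent.Q268.RB.TaskLow

open Finset Filter Topology
open Pool.Agent.Q268.RB

theorem Part.swapAB {n : ℕ} {A B C : Finset ℕ} (h : Part n A B C) : Part n B A C :=
  ⟨by rw [union_comm B A]; exact h.un, h.dAB.symm, h.dBC, h.dAC⟩

theorem Part.swapBC {n : ℕ} {A B C : Finset ℕ} (h : Part n A B C) : Part n A C B :=
  ⟨by rw [union_assoc, union_comm C B, ← union_assoc]; exact h.un, h.dAC, h.dAB, h.dBC.symm⟩

theorem card_eq {n : ℕ} {A B C : Finset ℕ} (h : Part n A B C) :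
    A.card + B.card + C.card = n := by
  have h1 := congrArg Finset.card h.un
  rw [card_union_of_disjoint (disjoint_union_left.2 ⟨h.dAC, h.dBC⟩), card_union_of_disjoint h.dAB,
    Nat.card_Icc, Nat.add_sub_cancel] at h1
  exact h1

theorem main (hS : TaskSymm) (hD : TaskDel1) (hB : TaskBal) : Pool.Agent.Q268.RB.TaskLow := by
  intro n
  induction n using Nat.strong_induction_on with
  | _ n ih =>
    have step : ∀ (m : ℕ) (A B C : Finset ℕ), Part n A B C → m ≤ A.card → m < B.card →
        m ≤ C.card → (m : ℤ) ^ 3 ≤ 6 * tri A B C + 30 * (m : ℤ) ^ 2 := by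
      intro m A B C hP hA hB' hC
      have hne : B.Nonempty := card_pos.1 (by omega)
      obtain ⟨A', B', C', h1, h2, h3, h4, h5⟩ := hD n A B C (B.max' hne) hP (B.max'_mem hne)
        fun y hy => B.le_max' y hy
      have hn := card_eq hP
      have h6 := ih (n - 1) (by omega) m A' B' C' h1 (by omega) (by omega) (by omega)
      have h7 : (tri A' B' C' : ℤ) ≤ tri A B C := by exact_mod_cast h5
      linarith
    intro m A B C hP hA hB' hC
    have hn := card_eq hP
    by_cases h1 : m < B.card
    · exact step m A B C hP hA h1 hC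
    by_cases h2 : m < A.card
    · have h3 := step m B A C (Part.swapAB hP) hB' h2 hC
      rwa [← (hS A B C).1] at h3
    by_cases h3 : m < C.card
    · have h4 := step m A C B (Part.swapBC hP) hA h3 hB'
      rwa [← (hS A B C).2] at h4
    have h5 : n = 3 * m := by omega
    subst h5
    exact hB m A B C hP (by omega) (by omega) (by omega)

end Pool.Agent.Q268.RB.TaskLow
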