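import Pool.Agent.Q268.RB.Stmts

set_option autoImplicit false

namespace Pool.Agent.Q268.RB

open Finset

private theorem num_split {n : ℕ} {A B C : Finset ℕ} (h : Part n A B C) (P : ℕ → Prop)
    [DecidablePred P] :
    (A.filter P).card + (B.filter P).card + (C.filter P).card = ((Icc 1 n).filter P).card := by
  rw [← h.un, filter_union, filter_union, card_union_of_disjoint, card_union_of_disjoint]
  · exact disjoint_filter_filter h.dAB
  · rw [disjoint_union_left]
    exact ⟨disjoint_filter_filter h.dAC, disjoint_filter_filter h.dBC⟩

theorem taskNum : TaskNum := by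
  intro m b g A B C h
  have hP := h.toPart
  have hbB := h.bB
  have hgC := h.gC
  have hbg := h.bg
  have hbA : b ∉ A := fun hA => (Finset.disjoint_left.1 hP.dAB hA) hbB
  have hgA : g ∉ A := fun hA => (Finset.disjoint_left.1 hP.dAC hA) hgC
  have hbC : b ∉ C := fun hC => (Finset.disjoint_left.1 hP.dBC hbB) hC
  have hbI : b ∈ Icc 1 (3 * m) := by
    rw [← hP.un]; simp [hbB]
  have hgI : g ∈ Icc 1 (3 * m) := by
    rw [← hP.un]; simp [hgC]
  rw [mem_Icc] at hbI hgI
  -- 1
  have h1 : (A.filter (fun x => x < b)).card + (A.filter (fun x => b < x ∧ x < g)).card +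
      (A.filter (fun x => g < x)).card = m := by
    rw [← h.cA, ← card_union_of_disjoint, ← card_union_of_disjoint]
    · congr 1
      ext x
      simp only [mem_union, mem_filter]
      constructor
      · rintro ((hx | hx) | hx) <;> exact hx.1
      · intro hx
        have : x ≠ b := fun e => hbA (e ▸ hx)
        have : x ≠ g := fun e => hgA (e ▸ hx)
        simp only [hx, true_and]
        omega
    · rw [Finset.disjoint_left]
      intro x hx hx'
      simp only [mem_union, mem_filter] at hx hx'
      omega
    · rw [Finset.disjoint_left]
      intro x hx hx'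
      simp only [mem_filter] at hx hx'
      omega
  -- C split at b
  have hC1 : (C.filter (fun x => x < b)).card + (C.filter (fun x => b < x ∧ x ≤ g)).card = m := by
    rw [← h.cC, ← card_union_of_disjoint]
    · congr 1
      ext x
      simp only [mem_union, mem_filter]
      constructor
      · rintro (hx | hx) <;> exact hx.1
      · intro hx
        have : x ≠ b := fun e => hbC (e ▸ hx)
        have := h.gmax x hx
        simp only [hx, true_and]
        omega
    · rw [Finset.disjoint_left]
      intro x hx hx'
      simp only [mem_filter] at hx hx'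
      omega
  -- 2
  have h2 : (A.filter (fun x => b < x ∧ x < g)).card + (C.filter (fun x => b < x ∧ x ≤ g)).card =
      g - b := by
    have e := num_split hP (fun x => b < x ∧ x ≤ g)
    have eI : (Icc 1 (3 * m)).filter (fun x => b < x ∧ x ≤ g) = Ioc b g := by
      ext x; simp only [mem_filter, mem_Icc, mem_Ioc]; omega
    have eB : B.filter (fun x => b < x ∧ x ≤ g) = ∅ := by
      rw [filter_eq_empty_iff]
      intro x hx
      have := h.bmax x hx
      omega
    have eA : A.filter (fun x => b < x ∧ x ≤ g) = A.filter (fun x => b < x ∧ x < g) := by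
      apply filter_congr
      intro x hx
      have : x ≠ g := fun e => hgA (e ▸ hx)
      omega
    rw [eI, eB, eA, Nat.card_Ioc, card_empty] at e
    omega
  -- 3
  have h3 : (A.filter (fun x => x < b)).card + m + (C.filter (fun x => x < b)).card = b := by
    have e := num_split hP (fun x => x ≤ b)
    have eI : (Icc 1 (3 * m)).filter (fun x => x ≤ b) = Icc 1 b := by
      ext x; simp only [mem_filter, mem_Icc]; omega
    have eB : B.filter (fun x => x ≤ b) = B := filter_true_of_mem h.bmax
    have eA : A.filter (fun x => x ≤ b) = A.filter (fun x => x < b) := by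
      apply filter_congr
      intro x hx
      have : x ≠ b := fun e => hbA (e ▸ hx)
      omega
    have eC : C.filter (fun x => x ≤ b) = C.filter (fun x => x < b) := by
      apply filter_congr
      intro x hx
      have : x ≠ b := fun e => hbC (e ▸ hx)
      omega
    rw [eI, eB, eA, eC, Nat.card_Icc, h.cB] at e
    omega
  -- 4
  have h4 : (A.filter (fun x => g < x)).card = 3 * m - g := by
    have e := num_split hP (fun x => g < x)
    have eI : (Icc 1 (3 * m)).filter (fun x => g < x) = Ioc g (3 * m) := by
      ext x; simp only [mem_filter, mem_Icc, mem_Ioc]; omega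
    have eB : B.filter (fun x => g < x) = ∅ := by
      rw [filter_eq_empty_iff]
      intro x hx
      have := h.bmax x hx
      omega
    have eC : C.filter (fun x => g < x) = ∅ := by
      rw [filter_eq_empty_iff]
      intro x hx
      have := h.gmax x hx
      omega
    rw [eI, eB, eC, Nat.card_Ioc, card_empty] at e
    omega
  -- 6
  have h6 : ∀ t : ℕ, (A.filter (fun x => x ≤ t ∧ x ≤ b)).card +
      (B.filter (fun x => x ≤ t ∧ x ≤ b)).card + (C.filter (fun x => x ≤ t ∧ x ≤ b)).card =
      min t b := by
    intro t
    rw [num_split hP (fun x => x ≤ t ∧ x ≤ b)]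
    have eI : (Icc 1 (3 * m)).filter (fun x => x ≤ t ∧ x ≤ b) = Icc 1 (min t b) := by
      ext x; simp only [mem_filter, mem_Icc, le_min_iff]; omega
    rw [eI, Nat.card_Icc]
    omega
  -- 7
  have h7 : (sh A b g).card = (A.filter (fun x => b < x ∧ x < g)).card := by
    unfold sh
    apply card_image_of_injOn
    intro x hx y hy hxy
    simp only [coe_filter, Set.mem_setOf_eq] at hx hy hxy
    omega
  have h8 : sh A b g ⊆ Icc 1 (g - b - 1) := by
    intro y hy
    unfold sh at hy
    simp only [mem_image, mem_filter] at hy
    obtain ⟨x, hx, rfl⟩ := hy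
    rw [mem_Icc]
    omega
  unfold pp qq ss ct
  refine ⟨by omega, by omega, by omega, by omega, by omega, ?_, by omega, h8⟩
  intro t
  have := h6 t
  omega

end Pool.Agent.Q268.RB
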