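import Pool.Agent.Q268.RB.Stmts

/-! RB.TaskOne (author: helper119). -/

set_option autoImplicit false

namespace Pool.Agent.Q268.RB.TaskOne

open Finset

theorem ct_mono (S : Finset ℕ) (b : ℕ) {s t : ℕ} (h : s ≤ t) : ct S b s ≤ ct S b t := by
  unfold ct
  exact_mod_cast card_le_card (fun x hx => by
    rw [mem_filter] at hx ⊢
    exact ⟨hx.1, hx.2.1.trans h, hx.2.2⟩)

theorem main (hNum : Pool.Agent.Q268.RB.TaskNum) : Pool.Agent.Q268.RB.TaskOne := by
  intro m b g A B C hc i j hij
  obtain ⟨h1, h2, h3, h4, h5, h6, -, -⟩ := hNum m b g A B C hc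
  have hbg := hc.bg
  have hj : g - b - i = j := by omega
  have hL : (i : ℤ) + j = g - b := by omega
  have h0p : (0 : ℤ) ≤ pp A b := by unfold pp; positivity
  have h0q : (0 : ℤ) ≤ qq A b g := by unfold qq; positivity
  have h0s : (0 : ℤ) ≤ ss A g := by unfold ss; positivity
  have h0c : (0 : ℤ) ≤ pp C b := by unfold pp; positivity
  have hi6 := h6 i
  have hj6 := h6 j
  unfold rho del
  rw [hj]
  have hi0 : (0 : ℤ) ≤ i := by positivity
  have hj0 : (0 : ℤ) ≤ j := by positivity
  rcases le_total i j with hle | hle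
  · have mA := ct_mono A b hle
    have mB := ct_mono B b hle
    have mC := ct_mono C b hle
    have hle' : (i : ℤ) ≤ j := by exact_mod_cast hle
    omega
  · have mA := ct_mono A b hle
    have mB := ct_mono B b hle
    have mC := ct_mono C b hle
    have hle' : (j : ℤ) ≤ i := by exact_mod_cast hle
    omega

end Pool.Agent.Q268.RB.TaskOne
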