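import Pool.Agent.Q268.RB.Stmts

set_option autoImplicit false

namespace Pool.Agent.Q268.RB.TaskOpt

open Pool.Agent.Q268.RB

theorem main : Pool.Agent.Q268.RB.TaskOpt := by
  intro m n hm hmn
  have h3 : √(3 : ℝ) * √3 = 3 := Real.mul_self_sqrt (by norm_num)
  have hs : 0 ≤ √(3 : ℝ) := Real.sqrt_nonneg _
  have key : (3 * √3 - 5) / 6 * n ^ 3 - (m * (n - m) ^ 2 / 4 - m ^ 3 / 6) =
      (m - (2 - √3) * n) ^ 2 * ((2 + 2 * √3) * n - m) / 12 := by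
    linear_combination (-(3 * (m - 2 * n) * n ^ 2 + 2 * √3 * n ^ 3) / 12) * h3
  have h1 : 0 ≤ (2 + 2 * √3) * n - m := by nlinarith [mul_nonneg hs (hm.trans hmn)]
  have h2 : 0 ≤ (m - (2 - √3) * n) ^ 2 * ((2 + 2 * √3) * n - m) / 12 := by positivity
  linarith

end Pool.Agent.Q268.RB.TaskOpt
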