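import Pool.Agent.Q268.RB.Stmts

set_option autoImplicit false

namespace Pool.Agent.Q268.RB

open Finset

theorem taskS2 : TaskS2 := by
  intro m b g A B C h
  have hbA : b ∉ A := fun hb => (Finset.disjoint_left.1 h.dAB) hb h.bB
  have hsh : ∑ i ∈ sh A b g, (pp A b - ct A b i) =
      ∑ t ∈ A.filter (fun x => b < x ∧ x < g), (pp A b - ct A b (t - b)) := by
    unfold sh
    refine Finset.sum_image ?_
    intro x hx y hy hxy
    have h1 := (Finset.mem_filter.1 hx).2
    have h2 := (Finset.mem_filter.1 hy).2
    have h3 : x - b = y - b := hxy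
    omega
  have hq : qq A b g = ∑ _t ∈ A.filter (fun x => b < x ∧ x < g), (1 : ℤ) := by
    simp [qq]
  rw [hsh, hq, ← Finset.sum_add_distrib]
  have hl : ∑ x ∈ A.filter (fun x => x < b),
      ((A.filter (fun t => b < t ∧ t ≤ b + x ∧ t < g)).card : ℤ) =
      ∑ t ∈ A.filter (fun x => b < x ∧ x < g),
        ((A.filter (fun x => x < b ∧ t ≤ b + x)).card : ℤ) := by
    have e1 : ∀ x ∈ A.filter (fun x => x < b),
        ((A.filter (fun t => b < t ∧ t ≤ b + x ∧ t < g)).card : ℤ) =
          ∑ t ∈ A.filter (fun x => b < x ∧ x < g), if t ≤ b + x then (1 : ℤ) else 0 := by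
      intro x _
      rw [Finset.sum_boole, Finset.filter_filter]
      congr 2
      ext t
      simp only [Finset.mem_filter]
      tauto
    rw [Finset.sum_congr rfl e1, Finset.sum_comm]
    refine Finset.sum_congr rfl fun t _ => ?_
    rw [Finset.sum_boole, Finset.filter_filter]
  rw [hl]
  refine Finset.sum_le_sum fun t ht => ?_
  have ht' := (Finset.mem_filter.1 ht).2
  unfold pp ct
  set R := A.filter (fun x => x < b ∧ t ≤ b + x) with hR
  set Q := A.filter (fun x => x ≤ t - b ∧ x ≤ b) with hQ
  set P := A.filter (fun x => x < b) with hP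
  have h1 : (R ∪ Q) ⊆ P := by
    intro x hx
    rcases Finset.mem_union.1 hx with hx | hx
    · have := Finset.mem_filter.1 hx
      exact Finset.mem_filter.2 ⟨this.1, this.2.1⟩
    · have := Finset.mem_filter.1 hx
      refine Finset.mem_filter.2 ⟨this.1, ?_⟩
      have hne : x ≠ b := by
        rintro rfl
        exact hbA this.1
      omega
  have h2 : (R ∩ Q) ⊆ {t - b} := by
    intro x hx
    have h3 := (Finset.mem_filter.1 (Finset.mem_inter.1 hx).1).2
    have h4 := (Finset.mem_filter.1 (Finset.mem_inter.1 hx).2).2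
    rw [Finset.mem_singleton]
    omega
  have h5 := Finset.card_le_card h1
  have h6 := Finset.card_le_card h2
  rw [Finset.card_singleton] at h6
  have h7 := Finset.card_union_add_card_inter R Q
  omega

end Pool.Agent.Q268.RB
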