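import Pool.Agent.Q268.RB.Stmts

set_option autoImplicit false

namespace Pool.Agent.Q268.RB

open Finset

private lemma tri_sum (v : ℕ) : ∀ N : ℕ, 2 * ∑ t ∈ range N, (v - t) ≤ v * (v + 1) := by
  induction v with
  | zero => intro N; simp
  | succ v ih =>
    intro N
    cases N with
    | zero => simp
    | succ N =>
      rw [Finset.sum_range_succ']
      have h1 : ∑ k ∈ range N, (v + 1 - (k + 1)) = ∑ k ∈ range N, (v - k) :=
        Finset.sum_congr rfl fun k _ => by omega
      rw [h1]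
      have h2 := ih N
      have h3 : (v + 1) * (v + 1 + 1) = v * (v + 1) + 2 * (v + 1) := by ring
      omega

private lemma min_sum (L : ℕ) (S : Finset ℕ) (hS : S ⊆ range (L + 1)) :
    (S.card : ℤ) ^ 2 - 2 * S.card ≤ 4 * ∑ t ∈ S, ((min t (L - t) : ℕ) : ℤ) := by
  have key : ∀ v : ℕ, v * S.card ≤ ∑ t ∈ S, min t (L - t) + v * (v + 1) := by
    intro v
    have h1 : ∑ t ∈ S, (v - min t (L - t)) ≤ ∑ t ∈ range (L + 1), ((v - t) + (v - (L - t))) := by
      refine (Finset.sum_le_sum_of_subset hS).trans (Finset.sum_le_sum fun t _ => ?_)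
      rcases le_total t (L - t) with h | h
      · rw [min_eq_left h]; omega
      · rw [min_eq_right h]; omega
    rw [Finset.sum_add_distrib] at h1
    have h2 : ∑ t ∈ range (L + 1), (v - (L - t)) = ∑ t ∈ range (L + 1), (v - t) :=
      Finset.sum_range_reflect (fun t => v - t) (L + 1)
    rw [h2] at h1
    have h3 := tri_sum v (L + 1)
    have h4 : v * S.card ≤ ∑ t ∈ S, (min t (L - t) + (v - min t (L - t))) := by
      rw [mul_comm, ← smul_eq_mul, ← Finset.sum_const]
      exact Finset.sum_le_sum fun t _ => by omega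
    rw [Finset.sum_add_distrib] at h4
    omega
  have h := key (S.card / 2)
  have h' : ((S.card / 2 : ℕ) : ℤ) * (S.card : ℤ) ≤ ∑ t ∈ S, ((min t (L - t) : ℕ) : ℤ) +
      ((S.card / 2 : ℕ) : ℤ) * (((S.card / 2 : ℕ) : ℤ) + 1) := by exact_mod_cast h
  generalize hv : S.card / 2 = v at h'
  rcases Nat.even_or_odd' S.card with ⟨c, hc | hc⟩
  · have : v = c := by omega
    subst this
    rw [hc] at h' ⊢
    push_cast at h' ⊢
    nlinarith
  · have : v = c := by omega
    subst this
    rw [hc] at h' ⊢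
    push_cast at h' ⊢
    nlinarith

theorem taskSumH : TaskSumH := by
  classical
  intro L I d r hI h0 h1 h2
  set q : ℤ := (I.card : ℤ) with hq
  set S := (range (L + 1)).filter (fun t => (t ∈ I ∧ L - t ∈ I ∧ min t (L - t) < I.card) ∨
    (t ∈ I ∧ L - t ∉ I) ∨ (t ∉ I ∧ L - t ∈ I)) with hSdef
  have hmem : ∀ t ∈ range (L + 1), (t ∈ S ↔ (t ∈ I ∧ L - t ∈ I ∧ min t (L - t) < I.card) ∨
    (t ∈ I ∧ L - t ∉ I) ∨ (t ∉ I ∧ L - t ∈ I)) := by
    intro t ht
    rw [hSdef, mem_filter]
    exact ⟨fun h => h.2, fun h => ⟨ht, h⟩⟩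
  have hW : ∀ t ∈ range (L + 1),
      (if t ∈ S then 2 * ((min t (L - t) : ℕ) : ℤ) - 2 * q else 0) +
        q * ((if t ∈ I then 1 else 0) + (if L - t ∈ I then 1 else 0)) ≤
      (2 * d t + (if t ∈ I then r t else 0)) +
        (2 * d (L - t) + (if L - t ∈ I then r (L - t) else 0)) := by
    intro t ht
    have htL : t ≤ L := by rw [mem_range] at ht; omega
    have a0 := h0 t htL
    have b0 := h0 (L - t) (by omega)
    have a1 := h1 t (L - t) (by omega)
    have b1 := h1 (L - t) t (by omega)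
    have a2 := h2 t (L - t) (by omega)
    rw [min_comm] at b1
    have hM : ((min t (L - t) : ℕ) : ℤ) = min (t : ℤ) ((L - t : ℕ) : ℤ) := Nat.cast_min _ _
    have hlt : (min t (L - t) < I.card) ↔ min (t : ℤ) ((L - t : ℕ) : ℤ) < q := by
      rw [← hM, hq]; exact Nat.cast_lt.symm
    rw [hM]
    generalize min (t : ℤ) ((L - t : ℕ) : ℤ) = M at *
    have hm := hmem t ht
    rw [hlt] at hm
    by_cases i1 : t ∈ I <;> by_cases i2 : L - t ∈ I
    · by_cases i3 : M < q
      · have hs : t ∈ S := hm.2 (Or.inl ⟨i1, i2, i3⟩)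
        rw [if_pos hs, if_pos i1, if_pos i1, if_pos i2, if_pos i2]
        rw [min_eq_left i3.le] at a2
        linarith
      · have hs : t ∉ S := fun h => by
          rcases hm.1 h with h | h | h
          · exact i3 h.2.2
          · exact h.2 i2
          · exact h.1 i1
        rw [if_neg hs, if_pos i1, if_pos i1, if_pos i2, if_pos i2]
        rw [min_eq_right (not_lt.1 i3)] at a2
        linarith
    · have hs : t ∈ S := hm.2 (Or.inr (Or.inl ⟨i1, i2⟩))
      rw [if_pos hs, if_pos i1, if_pos i1, if_neg i2, if_neg i2]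
      linarith
    · have hs : t ∈ S := hm.2 (Or.inr (Or.inr ⟨i1, i2⟩))
      rw [if_pos hs, if_neg i1, if_neg i1, if_pos i2, if_pos i2]
      linarith
    · have hs : t ∉ S := fun h => by
        rcases hm.1 h with h | h | h
        · exact i1 h.1
        · exact i1 h.1
        · exact i2 h.2
      rw [if_neg hs, if_neg i1, if_neg i1, if_neg i2, if_neg i2]
      linarith
  have hsum := Finset.sum_le_sum hW
  rw [Finset.sum_add_distrib, Finset.sum_add_distrib, ← Finset.mul_sum, Finset.sum_add_distrib] at hsum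
  have e1 : ∑ t ∈ range (L + 1), (2 * d (L - t) + (if L - t ∈ I then r (L - t) else 0)) =
      ∑ t ∈ range (L + 1), (2 * d t + (if t ∈ I then r t else 0)) :=
    Finset.sum_range_reflect (fun t => 2 * d t + (if t ∈ I then r t else 0)) (L + 1)
  have e2 : ∑ t ∈ range (L + 1), (if L - t ∈ I then (1 : ℤ) else 0) =
      ∑ t ∈ range (L + 1), (if t ∈ I then (1 : ℤ) else 0) :=
    Finset.sum_range_reflect (fun t => if t ∈ I then (1 : ℤ) else 0) (L + 1)
  have e3 : ∑ t ∈ range (L + 1), (if t ∈ I then (1 : ℤ) else 0) = q := by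
    rw [Finset.sum_ite_mem, Finset.inter_eq_right.2 hI, Finset.sum_const, nsmul_eq_mul, mul_one]
  have e4 : ∑ t ∈ range (L + 1), (2 * d t + (if t ∈ I then r t else 0)) =
      ∑ t ∈ range (L + 1), 2 * d t + ∑ i ∈ I, r i := by
    rw [Finset.sum_add_distrib, Finset.sum_ite_mem, Finset.inter_eq_right.2 hI]
  have hSsub : S ⊆ range (L + 1) := Finset.filter_subset _ _
  have e5 : ∑ t ∈ range (L + 1), (if t ∈ S then 2 * ((min t (L - t) : ℕ) : ℤ) - 2 * q else 0) =
      2 * ∑ t ∈ S, ((min t (L - t) : ℕ) : ℤ) - 2 * q * S.card := by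
    rw [Finset.sum_ite_mem, Finset.inter_eq_right.2 hSsub, Finset.sum_sub_distrib, Finset.sum_const,
      ← Finset.mul_sum, nsmul_eq_mul]
    ring
  rw [e1, e2, e3, e4, e5] at hsum
  have hmin := min_sum L S hSsub
  have hk : (S.card : ℤ) ≤ L + 1 := by
    have := Finset.card_le_card hSsub
    rw [Finset.card_range] at this
    exact_mod_cast this
  nlinarith [sq_nonneg ((S.card : ℤ) - 2 * q)]

end Pool.Agent.Q268.RB
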