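import Pool.Agent.Q268.RB.Stmts

set_option autoImplicit false

namespace Pool.Agent.Q268.RB.TaskSymm

open Finset Pool.Agent.Q268.RB

theorem main : Pool.Agent.Q268.RB.TaskSymm := by
  intro A B C
  constructor
  · unfold tri
    refine Finset.card_bij' (fun t _ => (t.2.1, t.1, t.2.2)) (fun t _ => (t.2.1, t.1, t.2.2))
      ?_ ?_ ?_ ?_
    · rintro ⟨x, y, z⟩ h
      simp only [mem_filter, mem_product, Tri] at h ⊢
      exact ⟨⟨h.1.2.1, h.1.1, h.1.2.2⟩, by omega, by omega, by omega⟩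
    · rintro ⟨x, y, z⟩ h
      simp only [mem_filter, mem_product, Tri] at h ⊢
      exact ⟨⟨h.1.2.1, h.1.1, h.1.2.2⟩, by omega, by omega, by omega⟩
    · rintro ⟨x, y, z⟩ _
      rfl
    · rintro ⟨x, y, z⟩ _
      rfl
  · unfold tri
    refine Finset.card_bij' (fun t _ => (t.1, t.2.2, t.2.1)) (fun t _ => (t.1, t.2.2, t.2.1))
      ?_ ?_ ?_ ?_
    · rintro ⟨x, y, z⟩ h
      simp only [mem_filter, mem_product, Tri] at h ⊢
      exact ⟨⟨h.1.1, h.1.2.2, h.1.2.1⟩, by omega, by omega, by omega⟩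
    · rintro ⟨x, y, z⟩ h
      simp only [mem_filter, mem_product, Tri] at h ⊢
      exact ⟨⟨h.1.1, h.1.2.2, h.1.2.1⟩, by omega, by omega, by omega⟩
    · rintro ⟨x, y, z⟩ _
      rfl
    · rintro ⟨x, y, z⟩ _
      rfl

end Pool.Agent.Q268.RB.TaskSymm
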