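import Pool.Agent.Q268.RB.Stmts

set_option autoImplicit false

namespace Pool.Agent.Q268.RB

open Finset Filter Topology

private lemma part_cl (n : ℕ) (χ : ℕ → Fin 3) : Part n (cl n χ 0) (cl n χ 1) (cl n χ 2) := by
  refine ⟨?_, ?_, ?_, ?_⟩
  · ext x
    simp only [cl, mem_union, mem_filter]
    constructor
    · rintro ((h | h) | h) <;> exact h.1
    · intro h
      have : χ x = 0 ∨ χ x = 1 ∨ χ x = 2 := by
        generalize χ x = y
        fin_cases y <;> simp
      tauto
  all_goals
    rw [Finset.disjoint_left]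
    intro x hx hy
    simp only [cl, mem_filter] at hx hy
    have := hx.2.symm.trans hy.2
    exact absurd this (by decide)

private lemma card_cl (n : ℕ) (χ : ℕ → Fin 3) :
    (cl n χ 0).card + (cl n χ 1).card + (cl n χ 2).card = n := by
  have h := part_cl n χ
  have h1 : Disjoint (cl n χ 0 ∪ cl n χ 1) (cl n χ 2) :=
    Finset.disjoint_union_left.2 ⟨h.dAC, h.dBC⟩
  rw [← Finset.card_union_of_disjoint h.dAB, ← Finset.card_union_of_disjoint h1, h.un]
  simp

private lemma prod_le (a b c m n : ℝ) (hm : 0 ≤ m) (ha : m ≤ a) (hb : m ≤ b) (hc : m ≤ c)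
    (hn : a + b + c = n) (h : a = m ∨ b = m ∨ c = m) : a * b * c ≤ m * (n - m) ^ 2 / 4 := by
  have key : ∀ x y : ℝ, m * (x * y) ≤ m * (x + y) ^ 2 / 4 := by
    intro x y
    nlinarith [mul_nonneg hm (sq_nonneg (x - y))]
  rcases h with h | h | h
  · have := key b c
    have h2 : n - m = b + c := by rw [← hn, h]; ring
    rw [h2, h]
    linarith
  · have := key a c
    have h2 : n - m = a + c := by rw [← hn, h]; ring
    rw [h2, h]
    linarith
  · have := key a b
    have h2 : n - m = a + b := by rw [← hn, h]; ring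
    rw [h2, h]
    linarith

theorem taskUp (hC : TaskCount) (hL : TaskLow) (hO : TaskOpt) : TaskUp := by
  intro n χ
  set a := (cl n χ 0).card with ha
  set b := (cl n χ 1).card with hb
  set c := (cl n χ 2).card with hc
  set T := tri (cl n χ 0) (cl n χ 1) (cl n χ 2) with hT
  have hcount : rb n χ + T = a * b * c := hC n χ
  have hsum : a + b + c = n := card_cl n χ
  obtain ⟨m, h1, h2, h3, h4⟩ : ∃ m : ℕ, m ≤ a ∧ m ≤ b ∧ m ≤ c ∧ (a = m ∨ b = m ∨ c = m) :=
    ⟨min a (min b c), by omega, by omega, by omega, by omega⟩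
  have hlow := hL n m _ _ _ (part_cl n χ) h1 h2 h3
  have hlow' : (m : ℝ) ^ 3 ≤ 6 * T + 30 * (m : ℝ) ^ 2 := by exact_mod_cast hlow
  have hcount' : (rb n χ : ℝ) + T = a * b * c := by exact_mod_cast hcount
  have hsum' : (a : ℝ) + b + c = n := by exact_mod_cast hsum
  have hp := prod_le (a : ℝ) b c m n (by positivity) (by exact_mod_cast h1) (by exact_mod_cast h2)
    (by exact_mod_cast h3) hsum' (by
      rcases h4 with h | h | h
      · left; exact_mod_cast h
      · right; left; exact_mod_cast h
      · right; right; exact_mod_cast h)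
  have hmn : (m : ℝ) ≤ n := by
    have : m ≤ n := by omega
    exact_mod_cast this
  have ho := hO (m : ℝ) (n : ℝ) (by positivity) hmn
  have hm2 : (m : ℝ) ^ 2 ≤ (n : ℝ) ^ 2 := by
    have : (0 : ℝ) ≤ m := by positivity
    nlinarith
  linarith

end Pool.Agent.Q268.RB
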